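import Pool.Agent.Lib.MP_37caee_an.Basic

/-!
The Riesz type transform `Phi` and its holomorphic extension `Psi`.
-/

namespace Pool.Agent.Lib.MP_37caee_an

open MeasureTheory Filter Topology Set Complex
open scoped ContDiff

/-- The real transform with kernel `|x - t| ^ (-τ)`. -/
noncomputable def Phi (τ : ℝ) (v : ℝ → ℝ) (t : ℝ) : ℝ := ∫ x, v x * |x - t| ^ (-τ)

/-- The complex kernel. -/
noncomputable def ker (τ : ℝ) (z : ℂ) (x : ℝ) : ℂ := (-I * (z - x)) ^ (((-τ : ℝ)) : ℂ)

/-- The holomorphic transform. -/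
noncomputable def Psi (τ : ℝ) (v : ℝ → ℝ) (z : ℂ) : ℂ := ∫ x : ℝ, (v x : ℂ) * ker τ z x

theorem measurable_ker (τ : ℝ) (z : ℂ) : Measurable (ker τ z) := by
  unfold ker; fun_prop

theorem norm_ker (τ : ℝ) (z : ℂ) (x : ℝ) : ‖ker τ z x‖ = ‖z - x‖ ^ (-τ) := by
  unfold ker
  rw [norm_cpow_real]; simp

theorem norm_ker_le {τ δ : ℝ} (hτ : 0 ≤ τ) (hδ : 0 < δ) {z : ℂ} {x : ℝ} (h : δ ≤ ‖z - x‖) :
    ‖ker τ z x‖ ≤ δ ^ (-τ) := by
  rw [norm_ker]
  exact Real.rpow_le_rpow_of_nonpos hδ h (by linarith)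

theorem hasDerivAt_ker (τ : ℝ) {z : ℂ} {x : ℝ} (h : -I * (z - x) ∈ slitPlane) :
    HasDerivAt (fun w => ker τ w x) (τ * I * ker (τ + 1) z x) z := by
  have h1 : HasDerivAt (fun w : ℂ => -I * (w - x)) (-I * 1) z :=
    ((hasDerivAt_id z).sub_const _).const_mul _
  have h2 := h1.cpow_const (c := ((-τ : ℝ) : ℂ)) h
  refine h2.congr_deriv ?_
  unfold ker
  have e : (((-τ : ℝ) : ℂ) - 1) = ((-(τ + 1) : ℝ) : ℂ) := by push_cast; ring
  rw [e]
  push_cast
  ring

theorem aesm_Psi_integrand (τ : ℝ) {v : ℝ → ℝ} (hv : Integrable v) (z : ℂ) :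
    AEStronglyMeasurable (fun x : ℝ => (v x : ℂ) * ker τ z x) volume :=
  hv.ofReal.1.mul (measurable_ker τ z).aestronglyMeasurable

theorem integrable_Psi {τ δ : ℝ} (hτ : 0 ≤ τ) (hδ : 0 < δ) {v : ℝ → ℝ} (hv : Integrable v) {z : ℂ}
    (h : ∀ᵐ x, v x ≠ 0 → δ ≤ ‖z - x‖) : Integrable (fun x : ℝ => (v x : ℂ) * ker τ z x) := by
  refine (hv.norm.mul_const (δ ^ (-τ))).mono' (aesm_Psi_integrand τ hv z) ?_
  filter_upwards [h] with x hx
  by_cases h0 : v x = 0
  · simp [h0]
  · rw [norm_mul, norm_real]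
    exact mul_le_mul_of_nonneg_left (norm_ker_le hτ hδ (hx h0)) (norm_nonneg _)

theorem hasDerivAt_Psi_of_ball {τ δ : ℝ} (hτ : 0 ≤ τ) (hδ : 0 < δ) {v : ℝ → ℝ}
    (hv : Integrable v) {z₀ : ℂ}
    (h : ∀ᵐ x, v x ≠ 0 → ∀ z ∈ Metric.ball z₀ δ, -I * (z - x) ∈ slitPlane ∧ δ ≤ ‖z - x‖) :
    HasDerivAt (Psi τ v) (τ * I * Psi (τ + 1) v z₀) z₀ := by
  have key := hasDerivAt_integral_of_dominated_loc_of_deriv_le (μ := (volume : Measure ℝ))
    (F := fun z x => (v x : ℂ) * ker τ z x)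
    (F' := fun z x => (v x : ℂ) * (τ * I * ker (τ + 1) z x))
    (bound := fun x => ‖v x‖ * (τ * δ ^ (-(τ + 1)))) (Metric.ball_mem_nhds z₀ hδ)
    (Eventually.of_forall fun z => aesm_Psi_integrand τ hv z)
    (integrable_Psi hτ hδ hv (h.mono fun x hx h0 => (hx h0 z₀ (Metric.mem_ball_self hδ)).2))
    (hv.ofReal.1.mul ((measurable_ker _ z₀).const_mul _).aestronglyMeasurable) ?_
    (hv.norm.mul_const _) ?_
  · refine key.2.congr_deriv ?_
    unfold Psi
    rw [← integral_const_mul]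
    congr 1; ext x; ring
  · filter_upwards [h] with x hx z hz
    by_cases h0 : v x = 0
    · simp [h0]
    · rw [norm_mul, norm_real, norm_mul, norm_mul, norm_I, mul_one, norm_real,
        Real.norm_of_nonneg hτ]
      refine mul_le_mul_of_nonneg_left (mul_le_mul_of_nonneg_left ?_ hτ) (norm_nonneg _)
      exact norm_ker_le (by linarith) hδ (hx h0 z hz).2
  · filter_upwards [h] with x hx z hz
    by_cases h0 : v x = 0
    · simpa [h0] using hasDerivAt_const z (0 : ℂ)
    · exact (hasDerivAt_ker τ (hx h0 z hz).1).const_mul _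

theorem hasDerivAt_Psi {τ : ℝ} (hτ : 0 ≤ τ) {v : ℝ → ℝ} (hv : Integrable v) {U : Set ℝ}
    (hU : IsOpen U) (h0 : ∀ᵐ x, x ∈ U → v x = 0) {z₀ : ℂ} (hz : 0 < z₀.im ∨ z₀.re ∈ U) :
    HasDerivAt (Psi τ v) (τ * I * Psi (τ + 1) v z₀) z₀ := by
  rcases hz with hz | hz
  · refine hasDerivAt_Psi_of_ball (δ := z₀.im / 2) hτ (by linarith) hv
      (Eventually.of_forall fun x _ z hz' => ?_)
    have h1 : |(z - z₀).im| < z₀.im / 2 :=
      (abs_im_le_norm _).trans_lt (by rwa [Metric.mem_ball, dist_eq_norm] at hz')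
    rw [sub_im, abs_lt] at h1
    refine ⟨Or.inl ?_, le_trans ?_ (abs_im_le_norm _)⟩
    · simp; linarith [h1.1]
    · simp only [sub_im, ofReal_im, sub_zero]
      exact le_trans (by linarith [h1.1]) (le_abs_self _)
  · obtain ⟨ε, hε, hb⟩ := Metric.isOpen_iff.1 hU _ hz
    refine hasDerivAt_Psi_of_ball (δ := ε / 2) hτ (by linarith) hv ?_
    filter_upwards [h0] with x hx hv0 z hz'
    have h1 : |(z - z₀).re| < ε / 2 :=
      (abs_re_le_norm _).trans_lt (by rwa [Metric.mem_ball, dist_eq_norm] at hz')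
    rw [sub_re] at h1
    have h2 : ε ≤ |x - z₀.re| := by
      by_contra hc
      exact hv0 (hx (hb (by rw [Metric.mem_ball, Real.dist_eq]; exact not_le.1 hc)))
    have h3 : ε / 2 ≤ |z.re - x| := by
      have := abs_sub_le x z.re z₀.re
      rw [abs_sub_comm x z.re] at this
      linarith
    refine ⟨Or.inr ?_, le_trans ?_ (abs_re_le_norm _)⟩
    · have : x - z.re ≠ 0 := fun h => by rw [abs_sub_comm, h, abs_zero] at h3; linarith
      simpa [sub_eq_zero] using this
    · simpa using h3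

theorem analyticOnNhd_Psi {τ : ℝ} (hτ : 0 ≤ τ) {v : ℝ → ℝ} (hv : Integrable v) {U : Set ℝ}
    (hU : IsOpen U) (h0 : ∀ᵐ x, x ∈ U → v x = 0) :
    AnalyticOnNhd ℂ (Psi τ v) {z | 0 < z.im ∨ z.re ∈ U} := by
  have ho : IsOpen {z : ℂ | 0 < z.im ∨ z.re ∈ U} :=
    (isOpen_lt continuous_const continuous_im).union (hU.preimage continuous_re)
  exact DifferentiableOn.analyticOnNhd
    (fun z hz => (hasDerivAt_Psi hτ hv hU h0 hz).differentiableAt.differentiableWithinAt) ho

/-- The phase of the kernel to the right of the source. -/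
noncomputable def om (τ : ℝ) : ℂ := exp ((τ * (Real.pi / 2) : ℝ) * I)

/-- The phase of the kernel to the left of the source. -/
noncomputable def om' (τ : ℝ) : ℂ := exp ((-(τ * (Real.pi / 2)) : ℝ) * I)

theorem ker_right (τ : ℝ) {t x : ℝ} (h : x < t) :
    ker τ t x = om τ * ((|x - t| ^ (-τ) : ℝ) : ℂ) := by
  have hr : 0 < t - x := sub_pos.2 h
  have e : -I * ((t : ℂ) - x) = ((t - x : ℝ) : ℂ) * (-I) := by push_cast; ring
  have hI : (-I) ≠ 0 := neg_ne_zero.2 I_ne_zero
  unfold ker om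
  rw [e, cpow_def_of_ne_zero (mul_ne_zero (ofReal_ne_zero.2 hr.ne') hI), log_ofReal_mul hr hI,
    log_neg_I, abs_sub_comm, abs_of_pos hr, Real.rpow_def_of_pos hr, ofReal_exp, ← exp_add]
  congr 1
  push_cast
  ring

theorem ker_left (τ : ℝ) {t x : ℝ} (h : t < x) :
    ker τ t x = om' τ * ((|x - t| ^ (-τ) : ℝ) : ℂ) := by
  have hr : 0 < x - t := sub_pos.2 h
  have e : -I * ((t : ℂ) - x) = ((x - t : ℝ) : ℂ) * I := by push_cast; ring
  unfold ker om'
  rw [e, cpow_def_of_ne_zero (mul_ne_zero (ofReal_ne_zero.2 hr.ne') I_ne_zero),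
    log_ofReal_mul hr I_ne_zero, log_I, abs_of_pos hr, Real.rpow_def_of_pos hr, ofReal_exp,
    ← exp_add]
  congr 1
  push_cast
  ring

theorem Psi_right (τ : ℝ) {v : ℝ → ℝ} {t : ℝ} (h : ∀ᵐ x, t ≤ x → v x = 0) :
    Psi τ v t = om τ * Phi τ v t := by
  unfold Psi Phi
  rw [← integral_complex_ofReal, ← integral_const_mul]
  refine integral_congr_ae ?_
  filter_upwards [h] with x hx
  rcases le_or_gt t x with h1 | h1
  · simp [hx h1]
  · rw [ker_right τ h1]; push_cast; ring

theorem Psi_left (τ : ℝ) {v : ℝ → ℝ} {t : ℝ} (h : ∀ᵐ x, x ≤ t → v x = 0) :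
    Psi τ v t = om' τ * Phi τ v t := by
  unfold Psi Phi
  rw [← integral_complex_ofReal, ← integral_const_mul]
  refine integral_congr_ae ?_
  filter_upwards [h] with x hx
  rcases le_or_gt x t with h1 | h1
  · simp [hx h1]
  · rw [ker_left τ h1]; push_cast; ring

theorem Psi_add {τ δ : ℝ} (hτ : 0 ≤ τ) (hδ : 0 < δ) {v w : ℝ → ℝ} (hv : Integrable v)
    (hw : Integrable w) {t : ℝ} (h1 : ∀ᵐ x, x ∈ Ioo (t - δ) (t + δ) → v x = 0)
    (h2 : ∀ᵐ x, x ∈ Ioo (t - δ) (t + δ) → w x = 0) :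
    Psi τ (v + w) t = Psi τ v t + Psi τ w t := by
  have aux : ∀ x : ℝ, x ∉ Ioo (t - δ) (t + δ) → δ ≤ ‖(t : ℂ) - x‖ := fun x hx => by
    rw [← ofReal_sub, norm_real, Real.norm_eq_abs]
    by_contra hc
    have := abs_lt.1 (not_le.1 hc)
    exact hx ⟨by linarith [this.2], by linarith [this.1]⟩
  unfold Psi
  rw [← integral_add
    (integrable_Psi hτ hδ hv (h1.mono fun x hx h0 => aux x fun h => h0 (hx h)))
    (integrable_Psi hτ hδ hw (h2.mono fun x hx h0 => aux x fun h => h0 (hx h)))]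
  congr 1; ext x; simp only [Pi.add_apply]; push_cast; ring

theorem om_ne_zero (τ : ℝ) : om τ ≠ 0 := exp_ne_zero _

theorem om'_ne_zero (τ : ℝ) : om' τ ≠ 0 := exp_ne_zero _

theorem om_indep {τ : ℝ} (h1 : 1 < τ) (h2 : τ < 2) {A C : ℝ}
    (h : om τ * A + om' τ * C = 0) : A = 0 := by
  set θ := τ * (Real.pi / 2) with hθ
  have hp := Real.pi_pos
  have hs : 0 < Real.sin θ := Real.sin_pos_of_pos_of_lt_pi (by positivity) (by nlinarith)
  have hc : Real.cos θ < 0 :=
    Real.cos_neg_of_pi_div_two_lt_of_lt (by nlinarith) (by nlinarith)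
  have hre := congrArg re h
  have him := congrArg im h
  unfold om om' at hre him
  rw [← hθ] at hre him
  simp only [add_re, mul_re, exp_ofReal_mul_I_re, ofReal_re, exp_ofReal_mul_I_im, ofReal_im,
    mul_zero, sub_zero, Real.cos_neg, zero_re, add_im, mul_im, Real.sin_neg, zero_add,
    zero_im] at hre him
  have e1 : A + C = 0 := by
    have : Real.cos θ * (A + C) = 0 := by linarith
    exact (mul_eq_zero.1 this).resolve_left hc.ne
  have e2 : A - C = 0 := by
    have : Real.sin θ * (A - C) = 0 := by linarith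
    exact (mul_eq_zero.1 this).resolve_left hs.ne'
  linarith

theorem frequently_of_ae {p : ℝ → Prop} {U : Set ℝ} (hU : IsOpen U) {y : ℝ} (hy : y ∈ U)
    (h : ∀ᵐ x, x ∈ U → p x) {q : ℂ → Prop} (hq : ∀ x ∈ U, p x → q x) :
    ∃ᶠ z in 𝓝[≠] (y : ℂ), q z := by
  have h1 : ∃ᶠ x in 𝓝[≠] y, x ∈ U ∧ p x := by
    intro hc
    rw [eventually_nhdsWithin_iff] at hc
    obtain ⟨ε, hε, hb⟩ := Metric.eventually_nhds_iff.1 (hc.and (hU.mem_nhds hy))
    have h2 : ∀ᵐ x, x ∉ Ioo y (y + ε) := by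
      filter_upwards [h] with x hx hm
      have hd : dist x y < ε := by
        rw [Real.dist_eq, abs_of_pos (sub_pos.2 hm.1)]; linarith [hm.2]
      exact (hb hd).1 (ne_of_gt hm.1) ⟨(hb hd).2, hx (hb hd).2⟩
    have h3 : volume (Ioo y (y + ε)) = 0 := measure_eq_zero_iff_ae_notMem.2 h2
    simp only [Real.volume_Ioo, add_sub_cancel_left, ENNReal.ofReal_eq_zero] at h3
    linarith
  have h2 : Tendsto (fun x : ℝ => (x : ℂ)) (𝓝[≠] y) (𝓝[≠] (y : ℂ)) :=
    continuous_ofReal.continuousWithinAt.tendsto_nhdsWithin fun x hx hc =>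
      hx (ofReal_injective hc)
  exact h2.frequently (h1.mono fun x hx => hq x hx.1 hx.2)

theorem integrable_Phi {τ δ t : ℝ} (hτ : 0 ≤ τ) (hδ : 0 < δ) {v : ℝ → ℝ} (hv : Integrable v)
    (h : ∀ᵐ x, v x ≠ 0 → δ ≤ |x - t|) : Integrable (fun x => v x * |x - t| ^ (-τ)) := by
  have hm : Measurable (fun x : ℝ => |x - t| ^ (-τ)) := by fun_prop
  refine (hv.norm.mul_const (δ ^ (-τ))).mono' (hv.1.mul hm.aestronglyMeasurable) ?_
  filter_upwards [h] with x hx
  by_cases h0 : v x = 0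
  · simp [h0]
  · rw [norm_mul, Real.norm_of_nonneg (Real.rpow_nonneg (abs_nonneg _) _)]
    exact mul_le_mul_of_nonneg_left
      (Real.rpow_le_rpow_of_nonpos hδ (hx h0) (by linarith)) (norm_nonneg _)

/-- Injectivity of the transform on compactly supported integrable functions. -/
theorem ae_zero_of_Phi {σ : ℝ} (hσ : 0 < σ) {v : ℝ → ℝ} (hv : Integrable v) {A C : ℝ}
    (h0 : ∀ᵐ x, x ∉ Icc A C → v x = 0) (h : ∀ t < A, Phi σ v t = 0) : ∀ᵐ x, v x = 0 := by
  have hU : ∀ᵐ x, x ∈ Iio A → v x = 0 := h0.mono fun x hx hx' => hx fun h => not_le.2 hx' h.1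
  have hleft : ∀ t < A, ∀ᵐ x, x ≤ t → v x = 0 := fun t ht =>
    hU.mono fun x hx hx' => hx (hx'.trans_lt ht)
  have hopen : IsOpen {z : ℂ | z.re < A} := isOpen_lt continuous_re continuous_const
  have step : ∀ k : ℕ, ∀ z : ℂ, z.re < A → Psi (σ + k) v z = 0 := by
    intro k
    induction k with
    | zero =>
      have ha : AnalyticOnNhd ℂ (Psi σ v) {z : ℂ | z.re < A} :=
        (analyticOnNhd_Psi hσ.le hv isOpen_Iio hU).mono fun z hz => Or.inr hz
      have := ha.eqOn_zero_of_preconnected_of_frequently_eq_zero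
        (convex_halfSpace_re_lt A).isPreconnected (z₀ := ((A - 1 : ℝ) : ℂ)) (by simp)
        (frequently_of_ae (p := fun _ => True) (U := Iio A) isOpen_Iio (by simp)
          (Eventually.of_forall fun _ _ => trivial)
          fun x hx _ => by rw [Psi_left σ (hleft x hx), h x hx]; simp)
      intro z hz
      simpa using this hz
    | succ k ih =>
      intro z hz
      have hk : 0 < σ + k := by positivity
      have h1 := hasDerivAt_Psi hk.le hv isOpen_Iio hU (z₀ := z) (Or.inr hz)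
      have h2 : HasDerivAt (Psi (σ + k) v) 0 z := by
        refine (hasDerivAt_const z (0 : ℂ)).congr_of_eventuallyEq ?_
        filter_upwards [hopen.mem_nhds hz] with w hw using ih w hw
      have h3 := h1.unique h2
      have h4 : ((σ + k : ℝ) : ℂ) * I ≠ 0 := mul_ne_zero (ofReal_ne_zero.2 hk.ne') I_ne_zero
      have h5 := (mul_eq_zero.1 h3).resolve_left h4
      rw [Nat.cast_succ, ← add_assoc]
      exact h5
  set t := A - 1 with ht
  have htA : t < A := by linarith
  have hPhi : ∀ k : ℕ, Phi (σ + k) v t = 0 := fun k => by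
    have h1 := step k t (by simpa using htA)
    rw [Psi_left _ (hleft t htA)] at h1
    exact ofReal_eq_zero.1 ((mul_eq_zero.1 h1).resolve_left (om'_ne_zero _))
  have hone : ∀ᵐ x, v x ≠ 0 → x ∈ Icc A C ∧ 1 ≤ |x - t| := by
    filter_upwards [h0] with x hx hv0
    have hm : x ∈ Icc A C := by by_contra hc; exact hv0 (hx hc)
    exact ⟨hm, le_trans (by linarith [hm.1]) (le_abs_self _)⟩
  have hone' : ∀ᵐ x, v x ≠ 0 → 1 ≤ |x - t| := hone.mono fun x hx h' => (hx h').2
  set w : ℝ → ℝ := fun x => v x * |x - t| ^ (-σ) with hw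
  have hwi : Integrable w := integrable_Phi hσ.le one_pos hv hone'
  have hmon : ∀ k : ℕ, (fun x => w x * (|x - t|⁻¹) ^ k) =ᵐ[volume]
      fun x => v x * |x - t| ^ (-(σ + k)) := fun k => by
    filter_upwards [hone'] with x hx
    by_cases hv0 : v x = 0
    · simp [hw, hv0]
    · have hp : 0 < |x - t| := one_pos.trans_le (hx hv0)
      simp only [hw]
      rw [neg_add, Real.rpow_add hp, Real.rpow_neg hp.le (k : ℝ), Real.rpow_natCast, inv_pow,
        mul_assoc]
  have hpoly : ∀ p : Polynomial ℝ, Integrable (fun x => w x * p.eval |x - t|⁻¹) ∧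
      ∫ x, w x * p.eval |x - t|⁻¹ = 0 := by
    intro p
    induction p using Polynomial.induction_on' with
    | add p q hp hq =>
      simp only [Polynomial.eval_add, mul_add]
      exact ⟨hp.1.add hq.1, by rw [integral_add hp.1 hq.1, hp.2, hq.2, add_zero]⟩
    | monomial k c =>
      have e : (fun x => w x * (Polynomial.monomial k c).eval |x - t|⁻¹) =
          fun x => c * (w x * (|x - t|⁻¹) ^ k) := by
        ext x; rw [Polynomial.eval_monomial]; ring
      rw [e]
      refine ⟨(Integrable.congr (integrable_Phi (by positivity) one_pos hv hone')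
        (hmon k).symm).const_mul c, ?_⟩
      rw [integral_const_mul, integral_congr_ae (hmon k)]
      have := hPhi k
      unfold Phi at this
      rw [this, mul_zero]
  have hw0 : ∀ᵐ x, w x = 0 := by
    refine ae_eq_zero_of_integral_contDiff_smul_eq_zero hwi.locallyIntegrable fun g hg hgc => ?_
    have hgw : Integrable (fun x => g x * w x) := by
      obtain ⟨M, hM⟩ := hg.continuous.bounded_above_of_compact_support hgc
      exact hwi.bdd_mul hg.continuous.aestronglyMeasurable (Eventually.of_forall hM)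
    set b : ℝ := (|C - t| + 1)⁻¹ with hb
    have hb0 : 0 < b := by positivity
    have hcont : ContinuousOn (fun ξ : ℝ => g (t + ξ⁻¹)) (Icc b 1) :=
      hg.continuous.comp_continuousOn (continuousOn_const.add
        (continuousOn_inv₀.mono fun ξ hξ => (hb0.trans_le hξ.1).ne'))
    have hN : 0 ≤ ∫ x, ‖w x‖ := integral_nonneg fun x => norm_nonneg _
    have hε : ∀ ε > 0, |∫ x, g x * w x| ≤ ε * ∫ x, ‖w x‖ := by
      intro ε hε
      obtain ⟨p, hp⟩ := exists_polynomial_near_of_continuousOn b 1 _ hcont ε hε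
      have e : ∫ x, g x * w x = ∫ x, (g x * w x - w x * p.eval |x - t|⁻¹) := by
        rw [integral_sub hgw (hpoly p).1, (hpoly p).2, sub_zero]
      rw [e, ← integral_const_mul, ← Real.norm_eq_abs]
      refine norm_integral_le_of_norm_le (hwi.norm.const_mul ε) ?_
      filter_upwards [hone] with x hx
      by_cases hv0 : v x = 0
      · simp [hw, hv0]
      · obtain ⟨hm, h1⟩ := hx hv0
        have hxt : 0 < x - t := by linarith [hm.1]
        have hmem : |x - t|⁻¹ ∈ Icc b 1 := by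
          refine ⟨inv_anti₀ (by positivity) ?_, inv_le_one_of_one_le₀ h1⟩
          rw [abs_of_pos hxt]
          linarith [le_abs_self (C - t), hm.2]
        have h2 := hp _ hmem
        rw [inv_inv, abs_of_pos hxt, add_sub_cancel] at h2
        have e2 : g x * w x - w x * p.eval |x - t|⁻¹ = (g x - p.eval (x - t)⁻¹) * w x := by
          rw [abs_of_pos hxt]; ring
        rw [e2, norm_mul]
        refine mul_le_mul_of_nonneg_right ?_ (norm_nonneg _)
        rw [Real.norm_eq_abs, abs_sub_comm]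
        exact h2.le
    simp only [smul_eq_mul]
    refine abs_nonpos_iff.1 (le_of_forall_pos_le_add fun ε hε' => ?_)
    have h3 := hε (ε / ((∫ x, ‖w x‖) + 1)) (by positivity)
    refine h3.trans ?_
    rw [zero_add, div_mul_eq_mul_div, div_le_iff₀ (by positivity)]
    nlinarith
  filter_upwards [hw0, hone'] with x hx h1
  by_contra hv0
  have hp : 0 < |x - t| := one_pos.trans_le (h1 hv0)
  exact (mul_ne_zero hv0 (Real.rpow_pos_of_pos hp _).ne') hx

end Pool.Agent.Lib.MP_37caee_an
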