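import Pool.Agent.Lib.MP_37caee_an.Defs

/-!
Elementary facts on the Gagliardo quotient and on square integrable functions.
-/

namespace Pool.Agent.Lib.MP_37caee_an

open MeasureTheory Filter Topology Set
open scoped ContDiff ENNReal

theorem ae_fst {p : ℝ → Prop} (h : ∀ᵐ x, p x) : ∀ᵐ z : ℝ × ℝ, p z.1 :=
  (Measure.quasiMeasurePreserving_fst (μ := (volume : Measure ℝ))
    (ν := (volume : Measure ℝ))).ae h

theorem ae_snd {p : ℝ → Prop} (h : ∀ᵐ x, p x) : ∀ᵐ z : ℝ × ℝ, p z.2 :=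
  (Measure.quasiMeasurePreserving_snd (μ := (volume : Measure ℝ))
    (ν := (volume : Measure ℝ))).ae h

theorem quot_add (s : ℝ) (u v : ℝ → ℝ) : quot s (u + v) = quot s u + quot s v := by
  ext z; simp only [quot, Pi.add_apply]; ring

theorem quot_sub (s : ℝ) (u v : ℝ → ℝ) : quot s (u - v) = quot s u - quot s v := by
  ext z; simp only [quot, Pi.sub_apply]; ring

theorem quot_neg (s : ℝ) (u : ℝ → ℝ) : quot s (-u) = -quot s u := by
  ext z; simp only [quot, Pi.neg_apply]; ring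

theorem quot_smul (s c : ℝ) (u : ℝ → ℝ) : quot s (c • u) = c • quot s u := by
  ext z; simp only [quot, Pi.smul_apply, smul_eq_mul]; ring

theorem quot_congr (s : ℝ) {u v : ℝ → ℝ} (h : u =ᵐ[volume] v) :
    quot s u =ᵐ[volume] quot s v := by
  filter_upwards [ae_fst h, ae_snd h] with z h1 h2
  simp only [quot, h1, h2]

theorem aesm_fst {u : ℝ → ℝ} (hu : AEStronglyMeasurable u volume) :
    AEStronglyMeasurable (fun z : ℝ × ℝ => u z.1) volume :=
  hu.comp_fst (ν := (volume : Measure ℝ))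

theorem aesm_snd {u : ℝ → ℝ} (hu : AEStronglyMeasurable u volume) :
    AEStronglyMeasurable (fun z : ℝ × ℝ => u z.2) volume :=
  hu.comp_snd (μ := (volume : Measure ℝ))

theorem aesm_quot (s : ℝ) {u : ℝ → ℝ} (hu : AEStronglyMeasurable u volume) :
    AEStronglyMeasurable (quot s u) volume := by
  have h1 : AEMeasurable (fun z : ℝ × ℝ => u z.1 - u z.2) volume :=
    ((aesm_fst hu).sub (aesm_snd hu)).aemeasurable
  have h2 : Measurable (fun z : ℝ × ℝ => |z.1 - z.2| ^ ((1 + 2 * s) / 2)) := by fun_prop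
  exact (h1.div h2.aemeasurable).aestronglyMeasurable

theorem quot_mul {s : ℝ} (hs : 0 < s) (u v : ℝ → ℝ) (z : ℝ × ℝ) :
    quot s u z * quot s v z =
      (u z.1 - u z.2) * (v z.1 - v z.2) / |z.1 - z.2| ^ (1 + 2 * s) := by
  simp only [quot]
  rw [div_mul_div_comm, ← Real.rpow_add' (abs_nonneg _) (by linarith)]
  congr 2; ring

theorem quot_sq {s : ℝ} (hs : 0 < s) (u : ℝ → ℝ) (z : ℝ × ℝ) :
    quot s u z ^ 2 = (u z.1 - u z.2) ^ 2 / |z.1 - z.2| ^ (1 + 2 * s) := by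
  rw [sq, quot_mul hs, sq]

section L2

variable {α : Type*} [MeasurableSpace α] {μ : Measure α}

theorem eLpNorm_eq_sqrt {F : α → ℝ} (hF : MemLp F 2 μ) :
    eLpNorm F 2 μ = ENNReal.ofReal (√(∫ x, F x ^ 2 ∂μ)) := by
  rw [hF.eLpNorm_eq_integral_rpow_norm (by norm_num) (by norm_num), Real.sqrt_eq_rpow]
  simp

theorem tendsto_eLpNorm_iff {F : ℕ → α → ℝ} (hF : ∀ k, MemLp (F k) 2 μ) :
    Tendsto (fun k => eLpNorm (F k) 2 μ) atTop (𝓝 0) ↔
      Tendsto (fun k => ∫ x, F k x ^ 2 ∂μ) atTop (𝓝 0) := by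
  have hnn : ∀ k, 0 ≤ ∫ x, F k x ^ 2 ∂μ := fun k => integral_nonneg fun x => sq_nonneg _
  simp only [fun k => eLpNorm_eq_sqrt (hF k)]
  constructor
  · intro h
    have h1 := (ENNReal.tendsto_toReal ENNReal.zero_ne_top).comp h
    have h2 := h1.pow 2
    simp only [ENNReal.toReal_zero, Function.comp_def] at h2
    simp only [ENNReal.toReal_ofReal (Real.sqrt_nonneg _), fun k => Real.sq_sqrt (hnn k)] at h2
    simpa using h2
  · intro h
    have h1 := ENNReal.tendsto_ofReal (h.sqrt)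
    simpa using h1

theorem norm_toLp_sq {F : α → ℝ} (hF : MemLp F 2 μ) :
    ‖hF.toLp F‖ ^ 2 = ∫ x, F x ^ 2 ∂μ := by
  rw [Lp.norm_toLp, eLpNorm_eq_sqrt hF, ENNReal.toReal_ofReal (Real.sqrt_nonneg _),
    Real.sq_sqrt (integral_nonneg fun x => sq_nonneg _)]

theorem inner_toLp {F G : α → ℝ} (hF : MemLp F 2 μ) (hG : MemLp G 2 μ) :
    inner ℝ (hF.toLp F) (hG.toLp G) = ∫ x, F x * G x ∂μ := by
  rw [L2.inner_def]
  refine integral_congr_ae ?_
  filter_upwards [hF.coeFn_toLp, hG.coeFn_toLp] with x h1 h2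
  simp [h1, h2, mul_comm]

theorem integrable_mul_two {F G : α → ℝ} (hF : MemLp F 2 μ) (hG : MemLp G 2 μ) :
    Integrable (fun x => F x * G x) μ :=
  hF.integrable_mul hG

end L2

/-- The integrable majorant `2 ^ σ (1 + |h|) ^ (-σ)`. -/
noncomputable def kap (σ h : ℝ) : ℝ := 2 ^ σ * (1 + |h|) ^ (-σ)

theorem kap_nonneg (σ h : ℝ) : 0 ≤ kap σ h := by unfold kap; positivity

theorem integrable_kap {σ : ℝ} (hσ : 1 < σ) : Integrable (kap σ) := by
  have h := integrable_one_add_norm (E := ℝ) (μ := volume) (r := σ) (by simpa using hσ)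
  exact h.const_mul _

/-- The total mass of the majorant. -/
noncomputable def kapI (σ : ℝ) : ℝ := ∫ h, kap σ h

theorem kapI_nonneg (σ : ℝ) : 0 ≤ kapI σ := integral_nonneg (kap_nonneg σ)

theorem min_sq_div_le {σ : ℝ} (h1 : 0 ≤ σ) (h2 : σ ≤ 2) {t : ℝ} (ht : 0 ≤ t) :
    min 1 t ^ 2 / t ^ σ ≤ 2 ^ σ * (1 + t) ^ (-σ) := by
  have key : (2 : ℝ) ^ σ * (1 + t) ^ (-σ) = (2 / (1 + t)) ^ σ := by
    rw [Real.div_rpow (by norm_num) (by linarith), Real.rpow_neg (by linarith), div_eq_mul_inv]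
  rw [key]
  rcases ht.eq_or_lt with rfl | ht'
  · simp only [zero_le_one, min_eq_right, ne_eq, OfNat.ofNat_ne_zero, not_false_eq_true, zero_pow,
      zero_div]
    positivity
  rcases le_total t 1 with h | h
  · rw [min_eq_right h]
    have e : t ^ 2 / t ^ σ = t ^ (2 - σ) := by
      rw [Real.rpow_sub ht', Real.rpow_two]
    rw [e]
    have a1 : t ^ (2 - σ) ≤ 1 := Real.rpow_le_one ht h (by linarith)
    have a2 : 1 ≤ (2 / (1 + t)) ^ σ := by
      refine Real.one_le_rpow ?_ h1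
      rw [le_div_iff₀ (by linarith)]; linarith
    linarith
  · have e : (1 : ℝ) / t ^ σ = (1 / t) ^ σ := by
      rw [Real.div_rpow (by norm_num) ht, Real.one_rpow]
    rw [min_eq_left h, one_pow, e]
    refine Real.rpow_le_rpow (by positivity) ?_ h1
    rw [div_le_div_iff₀ ht' (by linarith)]; linarith

theorem min_sq_div_le' {σ : ℝ} (h1 : 0 ≤ σ) (h2 : σ ≤ 2) {lam : ℝ} (hl : 0 < lam) (h : ℝ) :
    min 1 (lam * |h|) ^ 2 / |h| ^ σ ≤ lam ^ σ * kap σ (lam * h) := by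
  have h3 := min_sq_div_le h1 h2 (t := lam * |h|) (by positivity)
  have hp : 0 < lam ^ σ := Real.rpow_pos_of_pos hl _
  have e : |lam * h| = lam * |h| := by rw [abs_mul, abs_of_pos hl]
  unfold kap
  rw [e]
  rw [Real.mul_rpow hl.le (abs_nonneg _)] at h3
  calc min 1 (lam * |h|) ^ 2 / |h| ^ σ
      = lam ^ σ * (min 1 (lam * |h|) ^ 2 / (lam ^ σ * |h| ^ σ)) := by
        field_simp
    _ ≤ _ := mul_le_mul_of_nonneg_left h3 hp.le

theorem integrable_ind_mul {N : Set ℝ} (hN : MeasurableSet N) (hN' : volume N ≠ ⊤) {K : ℝ → ℝ}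
    (hK : Integrable K) :
    Integrable (fun z : ℝ × ℝ => N.indicator (fun _ => (1 : ℝ)) z.2 * K (z.1 - z.2)) ∧
      ∫ z : ℝ × ℝ, N.indicator (fun _ => (1 : ℝ)) z.2 * K (z.1 - z.2) =
        volume.real N * ∫ h, K h := by
  have hi : Integrable (N.indicator (fun _ => (1 : ℝ))) :=
    (integrableOn_const hN').integrable_indicator hN
  have h1 : Integrable (fun z : ℝ × ℝ => N.indicator (fun _ => (1 : ℝ)) z.2 * K (z.1 - z.2))
      ((volume : Measure ℝ).prod volume) :=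
    hi.convolution_integrand (ContinuousLinearMap.mul ℝ ℝ) hK
  refine ⟨h1, ?_⟩
  rw [Measure.volume_eq_prod, integral_prod_symm _ h1]
  simp only [integral_const_mul, integral_sub_right_eq_self K, integral_mul_const]
  rw [integral_indicator hN]
  simp

theorem sq_bound {s : ℝ} (hs0 : 0 < s) (hs1 : s < 1 / 2) {N : Set ℝ} (hN : MeasurableSet N)
    (hN' : volume N ≠ ⊤) {M lam : ℝ} (hlam : 0 < lam) {F : ℝ × ℝ → ℝ}
    (hF : AEStronglyMeasurable F volume) (h0 : ∀ z : ℝ × ℝ, z.1 ∉ N → z.2 ∉ N → F z = 0)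
    (hb : ∀ z : ℝ × ℝ, F z ^ 2 ≤
      M ^ 2 * (min 1 (lam * |z.1 - z.2|) ^ 2 / |z.1 - z.2| ^ (1 + 2 * s))) :
    MemLp F 2 volume ∧
      ∫ z, F z ^ 2 ≤ 2 * volume.real N * M ^ 2 * lam ^ (2 * s) * kapI (1 + 2 * s) := by
  set σ := 1 + 2 * s with hσ
  set K : ℝ → ℝ := fun h => M ^ 2 * (lam ^ σ * kap σ (lam * h)) with hKdef
  have hK : Integrable K :=
    (((integrable_kap (σ := σ) (by linarith)).comp_mul_left' hlam.ne').const_mul _).const_mul _
  have hKI : ∫ h, K h = M ^ 2 * lam ^ (2 * s) * kapI σ := by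
    simp only [hKdef, integral_const_mul]
    rw [Measure.integral_comp_mul_left (kap σ) lam, abs_of_pos (inv_pos.2 hlam), smul_eq_mul]
    have : lam ^ σ = lam * lam ^ (2 * s) := by
      rw [hσ, Real.rpow_add hlam, Real.rpow_one]
    rw [this]
    unfold kapI
    field_simp
  have hKnn : ∀ h, 0 ≤ K h := fun h => by
    have := kap_nonneg σ (lam * h)
    simp only [hKdef]; positivity
  have hKev : ∀ x y : ℝ, K (y - x) = K (x - y) := fun x y => by
    simp only [hKdef, kap, abs_mul, abs_sub_comm y x]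
  obtain ⟨i1, e1⟩ := integrable_ind_mul hN hN' hK
  have i2 : Integrable (fun z : ℝ × ℝ => N.indicator (fun _ => (1 : ℝ)) z.1 * K (z.2 - z.1)) :=
    i1.swap
  have e2 : ∫ z : ℝ × ℝ, N.indicator (fun _ => (1 : ℝ)) z.1 * K (z.2 - z.1) =
      volume.real N * ∫ h, K h := by
    rw [← e1]
    exact integral_prod_swap
      (fun z : ℝ × ℝ => N.indicator (fun _ => (1 : ℝ)) z.2 * K (z.1 - z.2))
  have hle : ∀ z : ℝ × ℝ, F z ^ 2 ≤ N.indicator (fun _ => (1 : ℝ)) z.2 * K (z.1 - z.2) +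
      N.indicator (fun _ => (1 : ℝ)) z.1 * K (z.2 - z.1) := by
    intro z
    have hz : F z ^ 2 ≤ K (z.1 - z.2) := (hb z).trans
      (mul_le_mul_of_nonneg_left (min_sq_div_le' (by linarith) (by linarith) hlam _) (sq_nonneg _))
    rw [hKev z.1 z.2]
    have hk := hKnn (z.1 - z.2)
    by_cases h1 : z.1 ∈ N <;> by_cases h2 : z.2 ∈ N
    · simp only [indicator_of_mem h1, indicator_of_mem h2]; linarith
    · simp only [indicator_of_mem h1, indicator_of_notMem h2]; linarith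
    · simp only [indicator_of_notMem h1, indicator_of_mem h2]; linarith
    · simp [indicator_of_notMem h1, indicator_of_notMem h2, h0 z h1 h2]
  have hint : Integrable (fun z => F z ^ 2) :=
    (i1.add i2).mono' (hF.pow 2) (Eventually.of_forall fun z => by
      rw [Real.norm_of_nonneg (sq_nonneg _)]; exact hle z)
  refine ⟨(memLp_two_iff_integrable_sq hF).2 hint, ?_⟩
  calc ∫ z, F z ^ 2 ≤ ∫ z : ℝ × ℝ, (N.indicator (fun _ => (1 : ℝ)) z.2 * K (z.1 - z.2) +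
      N.indicator (fun _ => (1 : ℝ)) z.1 * K (z.2 - z.1)) := integral_mono hint (i1.add i2) hle
    _ = _ := by rw [integral_add i1 i2, e1, e2, hKI]; ring

/-- Quantitative bound of the Gagliardo seminorm of a Lipschitz function. -/
theorem quot_bound {s : ℝ} (hs0 : 0 < s) (hs1 : s < 1 / 2) {N : Set ℝ} (hN : MeasurableSet N)
    (hN' : volume N ≠ ⊤) {M lam : ℝ} (hM : 0 ≤ M) (hlam : 0 < lam) {φ : ℝ → ℝ}
    (hφ : Continuous φ) (h0 : ∀ x, x ∉ N → φ x = 0) (h1 : ∀ x y, |φ x - φ y| ≤ M)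
    (h2 : ∀ x y, |φ x - φ y| ≤ M * (lam * |x - y|)) :
    MemLp (quot s φ) 2 volume ∧
      ∫ z, quot s φ z ^ 2 ≤ 2 * volume.real N * M ^ 2 * lam ^ (2 * s) * kapI (1 + 2 * s) := by
  refine sq_bound hs0 hs1 hN hN' hlam (aesm_quot s hφ.aestronglyMeasurable) ?_ ?_
  · intro z a b
    simp [quot, h0 _ a, h0 _ b]
  · intro z
    rw [quot_sq hs0, ← mul_div_assoc]
    refine div_le_div_of_nonneg_right ?_ (by positivity)
    rw [← mul_pow, ← sq_abs]
    refine pow_le_pow_left₀ (abs_nonneg _) ?_ 2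
    rw [mul_min_of_nonneg _ _ hM, mul_one]
    exact le_min (h1 _ _) (h2 _ _)

theorem IsTest.mono {U V : Set ℝ} {φ : ℝ → ℝ} (h : IsTest U φ) (hUV : U ⊆ V) : IsTest V φ :=
  ⟨h.1, h.2.1, h.2.2.trans hUV⟩

theorem IsTest.continuous {U : Set ℝ} {φ : ℝ → ℝ} (h : IsTest U φ) : Continuous φ :=
  h.1.continuous

theorem IsTest.eq_zero {U : Set ℝ} {φ : ℝ → ℝ} (h : IsTest U φ) {x : ℝ} (hx : x ∉ U) : φ x = 0 :=
  image_eq_zero_of_notMem_tsupport fun h' => hx (h.2.2 h')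

theorem IsTest.integrable {U : Set ℝ} {φ : ℝ → ℝ} (h : IsTest U φ) : Integrable φ :=
  h.continuous.integrable_of_hasCompactSupport h.2.1

theorem IsTest.inHs {s : ℝ} (hs0 : 0 < s) (hs1 : s < 1 / 2) {U : Set ℝ} {φ : ℝ → ℝ}
    (h : IsTest U φ) : InHs s φ := by
  refine ⟨h.continuous.memLp_of_hasCompactSupport h.2.1, ?_⟩
  obtain ⟨L, hL⟩ := h.1.lipschitzWith_of_hasCompactSupport h.2.1 (by simp)
  obtain ⟨C, hC⟩ := h.continuous.bounded_above_of_compact_support h.2.1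
  have hC0 : 0 ≤ C := (norm_nonneg _).trans (hC 0)
  refine (quot_bound hs0 hs1 (N := tsupport φ) (isClosed_tsupport φ).measurableSet
    h.2.1.isCompact.measure_lt_top.ne (M := 2 * C + 1) (lam := L + 1) (by positivity)
    (by positivity) h.continuous (fun x hx => image_eq_zero_of_notMem_tsupport hx) ?_ ?_).1
  · intro x y
    have a := hC x
    have b := hC y
    rw [Real.norm_eq_abs] at a b
    have := abs_sub (φ x) (φ y)
    linarith
  · intro x y
    have a := hL.dist_le_mul x y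
    rw [Real.dist_eq, Real.dist_eq] at a
    have b := abs_nonneg (x - y)
    have c : (0 : ℝ) ≤ L := L.2
    nlinarith [mul_nonneg hC0 b, mul_nonneg c b, mul_nonneg hC0 (mul_nonneg c b)]

theorem IsTest.add {U : Set ℝ} {φ ψ : ℝ → ℝ} (h : IsTest U φ) (h' : IsTest U ψ) :
    IsTest U (φ + ψ) :=
  ⟨h.1.add h'.1, h.2.1.add h'.2.1, (tsupport_add φ ψ).trans (union_subset h.2.2 h'.2.2)⟩

theorem IsTest.smul {U : Set ℝ} {φ : ℝ → ℝ} (h : IsTest U φ) (c : ℝ) : IsTest U (c • φ) :=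
  ⟨h.1.const_smul c, h.2.1.smul_left (f := fun _ => c), 
    (tsupport_smul_subset_right (fun _ => c) φ).trans h.2.2⟩

theorem IsTest.neg {U : Set ℝ} {φ : ℝ → ℝ} (h : IsTest U φ) : IsTest U (-φ) := by
  simpa using h.smul (-1)

theorem isTest_zero (U : Set ℝ) : IsTest U 0 :=
  ⟨contDiff_const, HasCompactSupport.zero, by simp⟩

theorem InHs.add {s : ℝ} {u v : ℝ → ℝ} (hu : InHs s u) (hv : InHs s v) : InHs s (u + v) :=
  ⟨hu.1.add hv.1, by rw [quot_add]; exact hu.2.add hv.2⟩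

theorem InHs.sub {s : ℝ} {u v : ℝ → ℝ} (hu : InHs s u) (hv : InHs s v) : InHs s (u - v) :=
  ⟨hu.1.sub hv.1, by rw [quot_sub]; exact hu.2.sub hv.2⟩

theorem InHs.neg {s : ℝ} {u : ℝ → ℝ} (hu : InHs s u) : InHs s (-u) :=
  ⟨hu.1.neg, by rw [quot_neg]; exact hu.2.neg⟩

theorem IsTest.inHtilde {s : ℝ} (hs0 : 0 < s) (hs1 : s < 1 / 2) {U : Set ℝ} {φ : ℝ → ℝ}
    (h : IsTest U φ) : InHtilde s U φ := by
  refine ⟨h.inHs hs0 hs1, fun _ => φ, fun _ => h, ?_, ?_⟩
  · simp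
  · have : quot s (φ - φ) = 0 := by rw [quot_sub]; simp
    simp only [this]; simp

theorem tendsto_eLpNorm_add {α : Type*} [MeasurableSpace α] {μ : Measure α} {F G : ℕ → α → ℝ}
    (hF : ∀ k, AEStronglyMeasurable (F k) μ) (hG : ∀ k, AEStronglyMeasurable (G k) μ)
    (h1 : Tendsto (fun k => eLpNorm (F k) 2 μ) atTop (𝓝 0))
    (h2 : Tendsto (fun k => eLpNorm (G k) 2 μ) atTop (𝓝 0)) :
    Tendsto (fun k => eLpNorm (F k + G k) 2 μ) atTop (𝓝 0) := by
  have h3 := h1.add h2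
  rw [add_zero] at h3
  exact tendsto_of_tendsto_of_tendsto_of_le_of_le tendsto_const_nhds h3 (fun _ => zero_le)
    fun k => eLpNorm_add_le (hF k) (hG k) (by norm_num)

theorem InHtilde.add {s : ℝ} (hs0 : 0 < s) (hs1 : s < 1 / 2) {U : Set ℝ} {u v : ℝ → ℝ}
    (hu : InHtilde s U u) (hv : InHtilde s U v) : InHtilde s U (u + v) := by
  obtain ⟨hu0, φ, hφ, hφ1, hφ2⟩ := hu
  obtain ⟨hv0, ψ, hψ, hψ1, hψ2⟩ := hv
  have e : ∀ k, u + v - (φ k + ψ k) = (u - φ k) + (v - ψ k) := fun k => by abel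
  refine ⟨hu0.add hv0, fun k => φ k + ψ k, fun k => (hφ k).add (hψ k), ?_, ?_⟩
  · simp only [e]
    exact tendsto_eLpNorm_add (fun k => (hu0.sub ((hφ k).inHs hs0 hs1)).1.1)
      (fun k => (hv0.sub ((hψ k).inHs hs0 hs1)).1.1) hφ1 hψ1
  · simp only [e, quot_add]
    exact tendsto_eLpNorm_add (fun k => (hu0.sub ((hφ k).inHs hs0 hs1)).2.1)
      (fun k => (hv0.sub ((hψ k).inHs hs0 hs1)).2.1) hφ2 hψ2

theorem InHtilde.neg {s : ℝ} {U : Set ℝ} {u : ℝ → ℝ} (hu : InHtilde s U u) :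
    InHtilde s U (-u) := by
  obtain ⟨hu0, φ, hφ, hφ1, hφ2⟩ := hu
  have e : ∀ k, -u - (-φ k) = -(u - φ k) := fun k => by abel
  refine ⟨hu0.neg, fun k => -φ k, fun k => (hφ k).neg, ?_, ?_⟩
  · simpa only [e, eLpNorm_neg] using hφ1
  · simpa only [e, quot_neg, eLpNorm_neg] using hφ2

theorem InHtilde.sub {s : ℝ} (hs0 : 0 < s) (hs1 : s < 1 / 2) {U : Set ℝ} {u v : ℝ → ℝ}
    (hu : InHtilde s U u) (hv : InHtilde s U v) : InHtilde s U (u - v) := by
  rw [sub_eq_add_neg]; exact hu.add hs0 hs1 hv.neg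

theorem InHtilde.ae_zero {s : ℝ} {U : Set ℝ} (hU : MeasurableSet U) {w : ℝ → ℝ}
    (hw : InHtilde s U w) : ∀ᵐ x, x ∉ U → w x = 0 := by
  obtain ⟨hw0, φ, hφ, hφ1, -⟩ := hw
  have hle : ∀ k, eLpNorm (Uᶜ.indicator w) 2 volume ≤ eLpNorm (w - φ k) 2 volume := fun k => by
    refine eLpNorm_mono fun x => ?_
    by_cases hx : x ∈ U
    · simp [hx]
    · simp [hx, (hφ k).eq_zero hx]
  have h0 : eLpNorm (Uᶜ.indicator w) 2 volume = 0 :=
    le_antisymm (ge_of_tendsto' hφ1 hle) zero_le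
  have h1 := (eLpNorm_eq_zero_iff (hw0.1.1.indicator hU.compl) (by norm_num)).1 h0
  filter_upwards [h1] with x hx hxU
  simpa [hxU] using hx

/-- The fractional Poincaré inequality on the interval `(-1, 1)`. -/
theorem poincare {s : ℝ} (hs0 : 0 < s) {w : ℝ → ℝ} (hw : InHs s w)
    (h0 : ∀ᵐ x, x ∉ Ioo (-1 : ℝ) 1 → w x = 0) :
    ∫ x, w x ^ 2 ≤ 4 ^ (1 + 2 * s) * ∫ z, quot s w z ^ 2 := by
  have hi : Integrable ((Ioo (2 : ℝ) 3).indicator (fun _ => (1 : ℝ))) :=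
    (integrableOn_const (by simp)).integrable_indicator measurableSet_Ioo
  have e : ∫ z : ℝ × ℝ, w z.1 ^ 2 * (Ioo (2 : ℝ) 3).indicator (fun _ => (1 : ℝ)) z.2 =
      ∫ x, w x ^ 2 := by
    rw [Measure.volume_eq_prod, integral_prod_mul (fun x => w x ^ 2), integral_indicator
      measurableSet_Ioo]
    simp
    norm_num
  rw [← e, ← integral_const_mul]
  refine integral_mono_ae (hw.1.integrable_sq.mul_prod hi) (hw.2.integrable_sq.const_mul _) ?_
  filter_upwards [ae_fst h0, ae_snd h0] with z h1 h2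
  by_cases hz : z.2 ∈ Ioo (2 : ℝ) 3
  · rw [indicator_of_mem hz, mul_one, quot_sq hs0, h2 (fun h => by linarith [h.2, hz.1]), sub_zero]
    by_cases hz1 : z.1 ∈ Ioo (-1 : ℝ) 1
    · have a1 : 0 < |z.1 - z.2| := abs_pos.2 (by linarith [hz1.2, hz.1])
      have a2 : |z.1 - z.2| ≤ 4 := abs_le.2 ⟨by linarith [hz1.1, hz.2], by linarith [hz1.2, hz.1]⟩
      have a3 : |z.1 - z.2| ^ (1 + 2 * s) ≤ 4 ^ (1 + 2 * s) :=
        Real.rpow_le_rpow a1.le a2 (by linarith)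
      have a4 : 0 < |z.1 - z.2| ^ (1 + 2 * s) := Real.rpow_pos_of_pos a1 _
      rw [← mul_div_assoc, le_div_iff₀ a4, mul_comm]
      exact mul_le_mul_of_nonneg_right a3 (sq_nonneg _)
    · rw [h1 hz1]; simp
  · rw [indicator_of_notMem hz, mul_zero]; positivity

end Pool.Agent.Lib.MP_37caee_an
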