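import Pool.Agent.Lib.MP_37caee_an.Basic

/-!
Existence of solutions of the exterior value problem on `(-1, 1)`.
-/

namespace Pool.Agent.Lib.MP_37caee_an

open MeasureTheory Filter Topology Set

/-- A measurable coefficient between two positive constants. -/
structure Coef (a : ℝ → ℝ) (α β : ℝ) : Prop where
  meas : Measurable a
  pos : 0 < α
  lb : ∀ x, α ≤ a x
  ub : ∀ x, a x ≤ β

/-- The bilinear form written with the square root `a` of the conductivity. -/
noncomputable def B (s : ℝ) (a u φ : ℝ → ℝ) : ℝ :=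
  ∫ z : ℝ × ℝ, a z.1 * a z.2 * (quot s u z * quot s φ z)

/-- Solutions for the form `B`. -/
def Sol (s : ℝ) (a f u : ℝ → ℝ) : Prop :=
  InHs s u ∧ InHtilde s (Ioo (-1) 1) (u - f) ∧ ∀ φ, InHtilde s (Ioo (-1) 1) φ → B s a u φ = 0

/-- The weighted quotient. -/
noncomputable def D (s : ℝ) (a φ : ℝ → ℝ) (z : ℝ × ℝ) : ℝ := √(a z.1 * a z.2) * quot s φ z

variable {s α β : ℝ} {a : ℝ → ℝ}

theorem Coef.apos (ha : Coef a α β) (x : ℝ) : 0 < a x := ha.pos.trans_le (ha.lb x)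

theorem Coef.bpos (ha : Coef a α β) : 0 < β := (ha.apos 0).trans_le (ha.ub 0)

theorem Coef.mul_lb (ha : Coef a α β) (x y : ℝ) : α ^ 2 ≤ a x * a y := by
  rw [sq]; exact mul_le_mul (ha.lb x) (ha.lb y) ha.pos.le (ha.apos x).le

theorem Coef.mul_ub (ha : Coef a α β) (x y : ℝ) : a x * a y ≤ β ^ 2 := by
  rw [sq]; exact mul_le_mul (ha.ub x) (ha.ub y) (ha.apos y).le ha.bpos.le

theorem Coef.mul_pos (ha : Coef a α β) (x y : ℝ) : 0 < a x * a y :=
  _root_.mul_pos (ha.apos x) (ha.apos y)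

theorem D_add (u v : ℝ → ℝ) : D s a (u + v) = D s a u + D s a v := by
  ext z; simp only [D, quot_add, Pi.add_apply]; ring

theorem D_sub (u v : ℝ → ℝ) : D s a (u - v) = D s a u - D s a v := by
  ext z; simp only [D, quot_sub, Pi.sub_apply]; ring

theorem D_smul (c : ℝ) (u : ℝ → ℝ) : D s a (c • u) = c • D s a u := by
  ext z; simp only [D, quot_smul, Pi.smul_apply, smul_eq_mul]; ring

theorem D_mul (ha : Coef a α β) (u v : ℝ → ℝ) (z : ℝ × ℝ) :
    D s a u z * D s a v z = a z.1 * a z.2 * (quot s u z * quot s v z) := by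
  have := Real.mul_self_sqrt (ha.mul_pos z.1 z.2).le
  simp only [D]
  linear_combination (quot s u z * quot s v z) * this

theorem D_sq (ha : Coef a α β) (u : ℝ → ℝ) (z : ℝ × ℝ) :
    D s a u z ^ 2 = a z.1 * a z.2 * quot s u z ^ 2 := by
  rw [sq, D_mul ha, sq]

theorem aesm_D (ha : Coef a α β) {u : ℝ → ℝ} (hu : AEStronglyMeasurable u volume) :
    AEStronglyMeasurable (D s a u) volume := by
  have h1 : Measurable (fun z : ℝ × ℝ => √(a z.1 * a z.2)) := by
    have := ha.meas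
    fun_prop
  exact h1.aestronglyMeasurable.mul (aesm_quot s hu)

theorem memLp_D (ha : Coef a α β) {u : ℝ → ℝ} (hu : InHs s u) : MemLp (D s a u) 2 volume := by
  rw [memLp_two_iff_integrable_sq (aesm_D ha hu.1.1)]
  refine (hu.2.integrable_sq.const_mul (β ^ 2)).mono' ((aesm_D ha hu.1.1).pow 2)
    (Eventually.of_forall fun z => ?_)
  rw [Real.norm_of_nonneg (sq_nonneg _), D_sq ha]
  exact mul_le_mul_of_nonneg_right (ha.mul_ub _ _) (sq_nonneg _)

theorem memLp_quot_of_D (ha : Coef a α β) {u : ℝ → ℝ} (hu : AEStronglyMeasurable u volume)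
    (h : MemLp (D s a u) 2 volume) : MemLp (quot s u) 2 volume := by
  rw [memLp_two_iff_integrable_sq (aesm_quot s hu)]
  refine (h.integrable_sq.const_mul (α ^ 2)⁻¹).mono' ((aesm_quot s hu).pow 2)
    (Eventually.of_forall fun z => ?_)
  rw [Real.norm_of_nonneg (sq_nonneg _), D_sq ha, le_inv_mul_iff₀ (pow_pos ha.pos 2)]
  exact mul_le_mul_of_nonneg_right (ha.mul_lb _ _) (sq_nonneg _)

theorem quot_le_D (ha : Coef a α β) {u : ℝ → ℝ} (hu : InHs s u) :
    ∫ z, quot s u z ^ 2 ≤ (α ^ 2)⁻¹ * ∫ z, D s a u z ^ 2 := by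
  rw [← integral_const_mul]
  refine integral_mono hu.2.integrable_sq ((memLp_D ha hu).integrable_sq.const_mul _) fun z => ?_
  simp only
  rw [D_sq ha, le_inv_mul_iff₀ (pow_pos ha.pos 2)]
  exact mul_le_mul_of_nonneg_right (ha.mul_lb _ _) (sq_nonneg _)

theorem D_le_quot (ha : Coef a α β) {u : ℝ → ℝ} (hu : InHs s u) :
    ∫ z, D s a u z ^ 2 ≤ β ^ 2 * ∫ z, quot s u z ^ 2 := by
  rw [← integral_const_mul]
  refine integral_mono (memLp_D ha hu).integrable_sq (hu.2.integrable_sq.const_mul _) fun z => ?_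
  simp only
  rw [D_sq ha]
  exact mul_le_mul_of_nonneg_right (ha.mul_ub _ _) (sq_nonneg _)

theorem B_eq_D (ha : Coef a α β) (u v : ℝ → ℝ) : B s a u v = ∫ z, D s a u z * D s a v z := by
  simp only [B, D_mul ha]

theorem integrable_B (ha : Coef a α β) {u v : ℝ → ℝ} (hu : InHs s u) (hv : InHs s v) :
    Integrable (fun z : ℝ × ℝ => a z.1 * a z.2 * (quot s u z * quot s v z)) := by
  simpa only [D_mul ha] using integrable_mul_two (memLp_D ha hu) (memLp_D ha hv)

theorem B_comm (u v : ℝ → ℝ) : B s a u v = B s a v u := by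
  simp only [B, mul_comm (quot s u _)]

theorem B_add_left (ha : Coef a α β) {u v w : ℝ → ℝ} (hu : InHs s u) (hv : InHs s v)
    (hw : InHs s w) : B s a (u + v) w = B s a u w + B s a v w := by
  simp only [B]
  rw [← integral_add (integrable_B ha hu hw) (integrable_B ha hv hw)]
  congr 1; ext z; simp only [quot_add, Pi.add_apply]; ring

theorem B_sub_left (ha : Coef a α β) {u v w : ℝ → ℝ} (hu : InHs s u) (hv : InHs s v)
    (hw : InHs s w) : B s a (u - v) w = B s a u w - B s a v w := by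
  simp only [B]
  rw [← integral_sub (integrable_B ha hu hw) (integrable_B ha hv hw)]
  congr 1; ext z; simp only [quot_sub, Pi.sub_apply]; ring

theorem norm_sq_of_ae {X : Type*} [MeasurableSpace X] {μ : Measure X} {G : Lp ℝ 2 μ} {g : X → ℝ}
    (h : G =ᵐ[μ] g) : ‖G‖ ^ 2 = ∫ x, g x ^ 2 ∂μ := by
  have h1 := norm_toLp_sq (Lp.memLp G)
  rw [Lp.toLp_coeFn] at h1
  rw [h1]
  refine integral_congr_ae ?_
  filter_upwards [h] with x hx
  rw [hx]

theorem inner_of_ae {X : Type*} [MeasurableSpace X] {μ : Measure X} {G H : Lp ℝ 2 μ}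
    {g h : X → ℝ} (h1 : G =ᵐ[μ] g) (h2 : H =ᵐ[μ] h) : inner ℝ G H = ∫ x, g x * h x ∂μ := by
  rw [L2.inner_def]
  refine integral_congr_ae ?_
  filter_upwards [h1, h2] with x e1 e2
  simp [e1, e2, mul_comm]

theorem sub_ae {X : Type*} [MeasurableSpace X] {μ : Measure X} {G H : Lp ℝ 2 μ}
    {g h : X → ℝ} (h1 : G =ᵐ[μ] g) (h2 : H =ᵐ[μ] h) : (G - H : Lp ℝ 2 μ) =ᵐ[μ] g - h :=
  (Lp.coeFn_sub G H).trans (h1.sub h2)

/-- The weighted quotients of the test functions, as a subspace of the square integrable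
functions of two variables. -/
def testSpace (s : ℝ) (a : ℝ → ℝ) : Submodule ℝ (Lp ℝ 2 (volume : Measure (ℝ × ℝ))) where
  carrier := {F | ∃ φ, IsTest (Ioo (-1) 1) φ ∧ F =ᵐ[volume] D s a φ}
  add_mem' := by
    rintro F G ⟨φ, h1, h2⟩ ⟨ψ, h3, h4⟩
    refine ⟨φ + ψ, h1.add h3, ?_⟩
    rw [D_add]
    exact (Lp.coeFn_add F G).trans (h2.add h4)
  zero_mem' := by
    refine ⟨0, isTest_zero _, (Lp.coeFn_zero _ _ _).trans (Eventually.of_forall fun z => ?_)⟩
    simp [D, quot]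
  smul_mem' := by
    rintro c F ⟨φ, h1, h2⟩
    refine ⟨c • φ, h1.smul c, ?_⟩
    rw [D_smul]
    exact (Lp.coeFn_smul c F).trans (h2.const_smul c)

theorem tendsto_of_norm_sq {E : Type*} [NormedAddCommGroup E] {F : ℕ → E} {P : E}
    (h : Tendsto (fun k => ‖P - F k‖ ^ 2) atTop (𝓝 0)) : Tendsto F atTop (𝓝 P) := by
  have h1 := h.sqrt
  simp only [Real.sqrt_sq (norm_nonneg _), Real.sqrt_zero] at h1
  rw [tendsto_iff_norm_sub_tendsto_zero]
  simpa only [norm_sub_rev] using h1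

theorem norm_sq_tendsto {E : Type*} [NormedAddCommGroup E] {F : ℕ → E} {P : E}
    (h : Tendsto F atTop (𝓝 P)) : Tendsto (fun k => ‖P - F k‖ ^ 2) atTop (𝓝 0) := by
  rw [tendsto_iff_norm_sub_tendsto_zero] at h
  have h1 := h.pow 2
  simpa only [norm_sub_rev, ne_eq, OfNat.ofNat_ne_zero, not_false_eq_true, zero_pow] using h1

theorem mem_closure_of_inHtilde (hs0 : 0 < s) (hs1 : s < 1 / 2) (ha : Coef a α β) {w : ℝ → ℝ}
    (hw : InHtilde s (Ioo (-1) 1) w) :
    (memLp_D ha hw.1).toLp _ ∈ (testSpace s a).topologicalClosure := by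
  obtain ⟨hw0, φ, hφ, -, hφ2⟩ := id hw
  have hH : ∀ k, InHs s (φ k) := fun k => (hφ k).inHs hs0 hs1
  change _ ∈ closure (testSpace s a : Set (Lp ℝ 2 (volume : Measure (ℝ × ℝ))))
  refine mem_closure_of_tendsto (f := fun k => (memLp_D ha (hH k)).toLp _) (b := atTop) ?_
    (Eventually.of_forall fun k => ⟨φ k, hφ k, MemLp.coeFn_toLp _⟩)
  refine tendsto_of_norm_sq ?_
  rw [tendsto_eLpNorm_iff fun k => (hw0.sub (hH k)).2] at hφ2
  have h3 := hφ2.const_mul (β ^ 2)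
  rw [mul_zero] at h3
  refine squeeze_zero (fun k => sq_nonneg _) (fun k => ?_) h3
  rw [norm_sq_of_ae (sub_ae (MemLp.coeFn_toLp _) (MemLp.coeFn_toLp _)), ← D_sub]
  exact D_le_quot ha (hw0.sub (hH k))

theorem exists_of_mem_closure (hs0 : 0 < s) (hs1 : s < 1 / 2) (ha : Coef a α β)
    {P : Lp ℝ 2 (volume : Measure (ℝ × ℝ))} (hP : P ∈ (testSpace s a).topologicalClosure) :
    ∃ w, InHtilde s (Ioo (-1) 1) w ∧ P =ᵐ[volume] D s a w := by
  obtain ⟨F, hF, hFP⟩ := mem_closure_iff_seq_limit.1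
    (show P ∈ closure (testSpace s a : Set (Lp ℝ 2 (volume : Measure (ℝ × ℝ)))) from hP)
  choose φ hφ hFφ using hF
  have hH : ∀ k, InHs s (φ k) := fun k => (hφ k).inHs hs0 hs1
  set Φ : ℕ → Lp ℝ 2 (volume : Measure ℝ) := fun k => (hH k).1.toLp _ with hΦ
  have hΦae : ∀ k, Φ k =ᵐ[volume] φ k := fun k => MemLp.coeFn_toLp _
  set c : ℝ := √(4 ^ (1 + 2 * s) * (α ^ 2)⁻¹) with hc
  have hc0 : 0 ≤ c := Real.sqrt_nonneg _
  have hc2 : c ^ 2 = 4 ^ (1 + 2 * s) * (α ^ 2)⁻¹ := Real.sq_sqrt (by positivity)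
  have hdist : ∀ n m, dist (Φ n) (Φ m) ≤ c * dist (F n) (F m) := by
    intro n m
    rw [dist_eq_norm, dist_eq_norm]
    refine (pow_le_pow_iff_left₀ (norm_nonneg _) (by positivity) two_ne_zero).1 ?_
    rw [mul_pow, hc2, norm_sq_of_ae (sub_ae (hΦae n) (hΦae m)),
      norm_sq_of_ae (sub_ae (hFφ n) (hFφ m)), ← D_sub, mul_assoc]
    refine (poincare hs0 ((hH n).sub (hH m)) (Eventually.of_forall fun x hx => ?_)).trans
      (mul_le_mul_of_nonneg_left (quot_le_D ha ((hH n).sub (hH m))) (by positivity))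
    simp [(hφ n).eq_zero hx, (hφ m).eq_zero hx]
  have hcau : CauchySeq Φ := by
    have h1 := hFP.cauchySeq
    rw [Metric.cauchySeq_iff] at h1 ⊢
    intro ε hε
    obtain ⟨N, hN⟩ := h1 (ε / (c + 1)) (by positivity)
    refine ⟨N, fun m hm n hn => (hdist m n).trans_lt ?_⟩
    have h2 := hN m hm n hn
    rw [lt_div_iff₀ (by positivity)] at h2
    nlinarith [dist_nonneg (x := F m) (y := F n)]
  obtain ⟨W, hW⟩ := cauchySeq_tendsto_of_complete hcau
  obtain ⟨ns, hns, hae1⟩ := (tendstoInMeasure_of_tendsto_Lp hW).exists_seq_tendsto_ae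
  obtain ⟨ms, hms, hae2⟩ :=
    (tendstoInMeasure_of_tendsto_Lp (hFP.comp hns.tendsto_atTop)).exists_seq_tendsto_ae
  have hae3 : ∀ᵐ x, Tendsto (fun i => φ (ns (ms i)) x) atTop (𝓝 (W x)) := by
    filter_upwards [hae1, ae_all_iff.2 hΦae] with x h1 h2
    simp only [h2] at h1
    exact h1.comp hms.tendsto_atTop
  have hPD : P =ᵐ[volume] D s a W := by
    filter_upwards [hae2, ae_all_iff.2 hFφ, ae_fst hae3, ae_snd hae3] with z h1 h2 h3 h4
    simp only [Function.comp_def, h2] at h1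
    refine tendsto_nhds_unique h1 ?_
    simp only [D, quot]
    exact ((h3.sub h4).div_const _).const_mul _
  have hWH : InHs s W :=
    ⟨Lp.memLp W, memLp_quot_of_D ha (Lp.aestronglyMeasurable W) ((Lp.memLp P).ae_eq hPD)⟩
  refine ⟨W, ⟨hWH, φ, hφ, ?_, ?_⟩, hPD⟩
  · rw [tendsto_eLpNorm_iff fun k => (hWH.sub (hH k)).1]
    refine (norm_sq_tendsto hW).congr fun k => ?_
    exact norm_sq_of_ae (sub_ae EventuallyEq.rfl (hΦae k))
  · rw [tendsto_eLpNorm_iff fun k => (hWH.sub (hH k)).2]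
    have h3 := (norm_sq_tendsto hFP).const_mul (α ^ 2)⁻¹
    rw [mul_zero] at h3
    refine squeeze_zero (fun k => integral_nonneg fun z => sq_nonneg _) (fun k => ?_) h3
    rw [norm_sq_of_ae (sub_ae hPD (hFφ k)), ← D_sub]
    exact quot_le_D ha (hWH.sub (hH k))

theorem exists_sol (hs0 : 0 < s) (hs1 : s < 1 / 2) (ha : Coef a α β) {f : ℝ → ℝ}
    (hf : InHs s f) : ∃ u, Sol s a f u := by
  set K := (testSpace s a).topologicalClosure with hK
  set F : Lp ℝ 2 (volume : Measure (ℝ × ℝ)) := (memLp_D ha hf).toLp _ with hF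
  obtain ⟨w, hw, hPw⟩ := exists_of_mem_closure hs0 hs1 ha (K.starProjection_apply_mem F)
  refine ⟨f - w, hf.sub hw.1, ?_, fun φ hφ => ?_⟩
  · have : f - w - f = -w := by abel
    rw [this]; exact hw.neg
  · have h1 := K.sub_starProjection_mem_orthogonal F
    have h2 := Submodule.inner_left_of_mem_orthogonal (mem_closure_of_inHtilde hs0 hs1 ha hφ) h1
    rw [inner_of_ae (sub_ae (MemLp.coeFn_toLp _) hPw) (MemLp.coeFn_toLp _), ← D_sub] at h2
    rw [B_eq_D ha, h2]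

end Pool.Agent.Lib.MP_37caee_an
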