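import Pool.Agent.Lib.MP_37caee_an.Analytic
import Pool.Agent.Lib.MP_37caee_an.Exist

/-!
The continuation argument: equal data on the right half-line force equal sources.
-/

namespace Pool.Agent.Lib.MP_37caee_an

open MeasureTheory Filter Topology Set Complex
open scoped ENNReal

/-- `v` is integrable and equals `a f` outside the interval `(-1, 1)`. -/
def Src (a f v : ℝ → ℝ) : Prop :=
  Integrable v ∧ ∀ᵐ x, x ∉ Ioo (-1 : ℝ) 1 → v x = a x * f x

theorem Coef.integrable_mul {a : ℝ → ℝ} {α β : ℝ} (ha : Coef a α β) {f : ℝ → ℝ}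
    (hf : Integrable f) : Integrable (fun x => a x * f x) :=
  hf.bdd_mul (c := β) ha.meas.aestronglyMeasurable (Eventually.of_forall fun x => by
    rw [Real.norm_of_nonneg (ha.apos x).le]; exact ha.ub x)

theorem isPreconnected_dom {t δ : ℝ} (hδ : 0 < δ) :
    IsPreconnected {z : ℂ | 0 < z.im ∨ z.re ∈ Ioo (t - δ) (t + δ) ∪ Ioi 1} := by
  have h1 : IsPreconnected {z : ℂ | 0 < z.im} := (convex_halfSpace_im_gt 0).isPreconnected
  have h2 : IsPreconnected ({z : ℂ | t - δ < z.re} ∩ {z : ℂ | z.re < t + δ}) :=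
    ((convex_halfSpace_re_gt _).inter (convex_halfSpace_re_lt _)).isPreconnected
  have h3 : IsPreconnected {z : ℂ | 1 < z.re} := (convex_halfSpace_re_gt 1).isPreconnected
  have h4 := IsPreconnected.union ((t : ℂ) + I) (by simp) (by simp [hδ]) h1 h2
  have h5 := IsPreconnected.union ((2 : ℂ) + I) (Or.inl (by simp)) (by simp) h4 h3
  have e : {z : ℂ | 0 < z.im ∨ z.re ∈ Ioo (t - δ) (t + δ) ∪ Ioi 1} =
      ({z : ℂ | 0 < z.im} ∪ ({z : ℂ | t - δ < z.re} ∩ {z : ℂ | z.re < t + δ})) ∪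
        {z : ℂ | 1 < z.re} := by
    ext z; simp [or_assoc]
  rw [e]; exact h5

theorem Psi_split {σ : ℝ} (hσ : 0 ≤ σ) {a f v : ℝ → ℝ} {α β : ℝ} (ha : Coef a α β)
    (hf : Integrable f) (hv : Src a f v) {t δ : ℝ} (hδ : 0 < δ) (ht : t + δ ≤ -1)
    (h0 : ∀ x, t - δ < x → f x = 0) :
    Psi σ v t = om σ * Phi σ (fun x => a x * f x) t +
      om' σ * Phi σ (v - fun x => a x * f x) t := by
  have e : v = (fun x => a x * f x) + (v - fun x => a x * f x) := by abel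
  have hz : ∀ᵐ x, x < -1 → (v - fun x => a x * f x) x = 0 := by
    filter_upwards [hv.2] with x hx hx'
    simp [hx fun h => lt_asymm hx' h.1]
  have h1 := Psi_add hσ hδ (ha.integrable_mul hf) (hv.1.sub (ha.integrable_mul hf)) (t := t)
    (Eventually.of_forall fun x hx => by simp [h0 x hx.1])
    (hz.mono fun x hx hx' => hx (by linarith [hx'.2]))
  rw [← e] at h1
  rw [h1, Psi_right σ (Eventually.of_forall fun x hx => by simp [h0 x (by linarith)]),
    Psi_left σ (hz.mono fun x hx hx' => hx (by linarith))]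

theorem cross_identity {σ : ℝ} (h1 : 1 < σ) (h2 : σ < 2) {a₁ a₂ : ℝ → ℝ} {α₁ β₁ α₂ β₂ : ℝ}
    (ha₁ : Coef a₁ α₁ β₁) (ha₂ : Coef a₂ α₂ β₂) {f f' v₁ v₂ v₁' v₂' : ℝ → ℝ}
    (hf : Integrable f) (hv₁ : Src a₁ f v₁) (hv₂ : Src a₂ f v₂) (hv₁' : Src a₁ f' v₁')
    (hv₂' : Src a₂ f' v₂')
    (hd : ∀ᵐ y, 1 < y → a₁ y * Phi σ v₁ y = a₂ y * Phi σ v₂ y)
    (hd' : ∀ᵐ y, 1 < y → a₁ y * Phi σ v₁' y = a₂ y * Phi σ v₂' y)
    {t δ : ℝ} (hδ : 0 < δ) (ht : t + δ ≤ -1) (h0 : ∀ x, t - δ < x → f x = 0)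
    (h0' : ∀ x, x < t + δ → f' x = 0) (h0'' : ∀ x, 1 ≤ x → f' x = 0) :
    Phi σ (fun x => a₁ x * f x) t * Phi σ v₂' t = Phi σ (fun x => a₂ x * f x) t * Phi σ v₁' t := by
  have hσ : 0 ≤ σ := by linarith
  set U : Set ℝ := Ioo (t - δ) (t + δ) ∪ Ioi 1 with hU
  have hUo : IsOpen U := isOpen_Ioo.union isOpen_Ioi
  have hnot : ∀ x ∈ U, x ∉ Ioo (-1 : ℝ) 1 := by
    rintro x (hx | hx) h
    · linarith [hx.2, h.1]
    · exact lt_asymm hx h.2
  have hfU : ∀ x ∈ U, f x = 0 := by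
    rintro x (hx | hx)
    · exact h0 x hx.1
    · exact h0 x (by have : (1 : ℝ) < x := hx; linarith)
  have hfU' : ∀ x ∈ U, f' x = 0 := by
    rintro x (hx | hx)
    · exact h0' x hx.2
    · exact h0'' x (le_of_lt hx)
  have an : ∀ {a g v : ℝ → ℝ}, Src a g v → (∀ x ∈ U, g x = 0) →
      AnalyticOnNhd ℂ (Psi σ v) {z | 0 < z.im ∨ z.re ∈ U} := fun hv hg =>
    analyticOnNhd_Psi hσ hv.1 hUo (hv.2.mono fun x hx hxU => by
      rw [hx (hnot x hxU), hg x hxU, mul_zero])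
  have right : ∀ {a g v : ℝ → ℝ}, Src a g v → (∀ x ∈ U, g x = 0) → ∀ y : ℝ, 1 < y →
      Psi σ v y = om σ * Phi σ v y := fun hv hg y hy =>
    Psi_right σ (hv.2.mono fun x hx hxy => by
      have hxU : x ∈ U := Or.inr (hy.trans_le hxy)
      rw [hx (hnot x hxU), hg x hxU, mul_zero])
  have left : ∀ {a v : ℝ → ℝ}, Src a f' v → Psi σ v t = om' σ * Phi σ v t := fun hv =>
    Psi_left σ (hv.2.mono fun x hx hxt => by
      rw [hx fun h => by linarith [h.1], h0' x (by linarith), mul_zero])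
  have hfreq : ∃ᶠ z in 𝓝[≠] ((2 : ℝ) : ℂ),
      (Psi σ v₁ * Psi σ v₂') z = (Psi σ v₂ * Psi σ v₁') z := by
    refine frequently_of_ae (U := Ioi 1) isOpen_Ioi (by simp)
      (p := fun y => Phi σ v₁ y * Phi σ v₂' y = Phi σ v₂ y * Phi σ v₁' y) ?_ ?_
    · filter_upwards [hd, hd'] with y e e' hy
      refine mul_left_cancel₀ (ha₁.apos y).ne' ?_
      linear_combination Phi σ v₂' y * e hy - Phi σ v₂ y * e' hy
    · intro y hy e
      simp only [Pi.mul_apply]
      rw [right hv₁ hfU y hy, right hv₂ hfU y hy, right hv₁' hfU' y hy, right hv₂' hfU' y hy]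
      have e' := congrArg (fun r : ℝ => (r : ℂ)) e
      simp only [ofReal_mul] at e'
      linear_combination om σ ^ 2 * e'
  have key := ((an hv₁ hfU).mul (an hv₂' hfU')).eqOn_of_preconnected_of_frequently_eq
    ((an hv₂ hfU).mul (an hv₁' hfU')) (isPreconnected_dom hδ) (z₀ := ((2 : ℝ) : ℂ))
    (Or.inr (Or.inr (by simp))) hfreq
    (show (t : ℂ) ∈ _ from Or.inr (Or.inl (by simp [hδ])))
  simp only at key
  rw [Psi_split hσ ha₁ hf hv₁ hδ ht h0, Psi_split hσ ha₂ hf hv₂ hδ ht h0, left hv₁',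
    left hv₂'] at key
  refine sub_eq_zero.1 (om_indep h1 h2
    (C := Phi σ (v₁ - fun x => a₁ x * f x) t * Phi σ v₂' t -
      Phi σ (v₂ - fun x => a₂ x * f x) t * Phi σ v₁' t) ?_)
  refine mul_left_cancel₀ (om'_ne_zero σ) ?_
  push_cast
  linear_combination key

theorem eq_of_decay {a₁ a₂ : ℝ → ℝ} {p : ℝ≥0∞} (hp0 : p ≠ 0) (hp1 : p ≠ ⊤)
    (hm₁ : MemLp (fun x => a₁ x - 1) p volume) (hm₂ : MemLp (fun x => a₂ x - 1) p volume)
    {c d t : ℝ} (h : ∀ᵐ x, x ∈ Iio t → a₁ x * c = a₂ x * d) : c = d := by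
  have h1 : MemLp (fun x => c * (a₁ x - 1) - d * (a₂ x - 1)) p (volume.restrict (Iio t)) :=
    ((hm₁.const_mul c).sub (hm₂.const_mul d)).restrict _
  have h2 : MemLp (fun _ : ℝ => d - c) p (volume.restrict (Iio t)) := by
    refine h1.ae_eq ?_
    filter_upwards [ae_restrict_of_ae h, ae_restrict_mem measurableSet_Iio] with x hx hx'
    linear_combination hx hx'
  rcases (memLp_const_iff hp0 hp1).1 h2 with h3 | h3
  · linarith
  · simp at h3

theorem exists_gap {f : ℝ → ℝ} {t : ℝ} (h : tsupport f ⊆ Iio t) :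
    ∃ δ > 0, ∀ x, t - δ < x → f x = 0 := by
  have ho : IsOpen (tsupport f)ᶜ := (isClosed_tsupport f).isOpen_compl
  obtain ⟨ε, hε, hb⟩ := Metric.isOpen_iff.1 ho t (fun h' => lt_irrefl t (h h'))
  refine ⟨ε, hε, fun x hx => image_eq_zero_of_notMem_tsupport fun h' => ?_⟩
  have h1 : x < t := h h'
  exact hb (show x ∈ Metric.ball t ε by
    rw [Metric.mem_ball, Real.dist_eq, abs_lt]; constructor <;> linarith) h'

theorem sources_eq {σ : ℝ} (h1 : 1 < σ) (h2 : σ < 2) {a₁ a₂ : ℝ → ℝ} {α₁ β₁ α₂ β₂ : ℝ}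
    (ha₁ : Coef a₁ α₁ β₁) (ha₂ : Coef a₂ α₂ β₂) {p : ℝ≥0∞} (hp0 : p ≠ 0) (hp1 : p ≠ ⊤)
    (hm₁ : MemLp (fun x => a₁ x - 1) p volume) (hm₂ : MemLp (fun x => a₂ x - 1) p volume)
    {P : (ℝ → ℝ) → (ℝ → ℝ) → (ℝ → ℝ) → Prop}
    (hex : ∀ f, IsTest (Iio (-1)) f → ∃ v₁ v₂, P f v₁ v₂)
    (hP : ∀ f v₁ v₂, IsTest (Iio (-1)) f → P f v₁ v₂ → Src a₁ f v₁ ∧ Src a₂ f v₂ ∧
      ∀ᵐ y, 1 < y → a₁ y * Phi σ v₁ y = a₂ y * Phi σ v₂ y)
    {f' v₁' v₂' : ℝ → ℝ} (hf' : IsTest (Iio (-1)) f') (hP' : P f' v₁' v₂') :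
    v₁' =ᵐ[volume] v₂' := by
  have hσ : 0 < σ := by linarith
  obtain ⟨hv₁', hv₂', hd'⟩ := hP f' v₁' v₂' hf' hP'
  obtain ⟨R, hR⟩ := hf'.2.1.isCompact.isBounded.subset_closedBall 0
  set A : ℝ := -(|R| + 1) with hA
  have hA1 : A ≤ -1 := by linarith [abs_nonneg R]
  have hfA : ∀ x, x < A → f' x = 0 := fun x hx => image_eq_zero_of_notMem_tsupport fun h => by
    have := hR h
    rw [Metric.mem_closedBall, Real.dist_eq, sub_zero, abs_le] at this
    linarith [this.1, le_abs_self R]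
  have hf1 : ∀ x, 1 ≤ x → f' x = 0 := fun x hx => hf'.eq_zero fun h => by
    have : x < -1 := h
    linarith
  have hsupp : ∀ {a v : ℝ → ℝ}, Src a f' v → ∀ᵐ x, x ∉ Icc A 1 → v x = 0 := fun hv =>
    hv.2.mono fun x hx hx' => by
      rw [hx fun h => hx' ⟨by linarith [h.1], h.2.le⟩]
      rcases lt_or_ge x A with h | h
      · rw [hfA x h, mul_zero]
      · rw [hf1 x (by by_contra hc; exact hx' ⟨h, (not_le.1 hc).le⟩), mul_zero]
  have main : ∀ t < A, Phi σ v₂' t = Phi σ v₁' t := by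
    intro t ht
    refine eq_of_decay hp0 hp1 hm₁ hm₂ (t := t) ?_
    have hloc : LocallyIntegrableOn
        (fun x => |x - t| ^ (-σ) * (a₁ x * Phi σ v₂' t - a₂ x * Phi σ v₁' t)) (Iio t) := by
      have b : ∀ {a : ℝ → ℝ} {α β : ℝ}, Coef a α β → MemLp a ⊤ volume := fun {a α β} ha =>
        memLp_top_of_bound ha.meas.aestronglyMeasurable β (Eventually.of_forall fun x => by
          rw [Real.norm_of_nonneg (ha.apos x).le]; exact ha.ub x)
      have c : MemLp (fun x => a₁ x * Phi σ v₂' t - a₂ x * Phi σ v₁' t) ⊤ volume :=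
        ((b ha₁).mul_const _).sub ((b ha₂).mul_const _)
      refine LocallyIntegrableOn.continuousOn_mul
        ((c.locallyIntegrable le_top).locallyIntegrableOn _) ?_ isOpen_Iio.isLocallyClosed
      refine ContinuousOn.rpow_const (by fun_prop) fun x hx => Or.inl ?_
      exact abs_ne_zero.2 (sub_ne_zero.2 (ne_of_lt hx))
    have hz := isOpen_Iio.ae_eq_zero_of_integral_contDiff_smul_eq_zero hloc ?_
    · filter_upwards [hz] with x hx hxt
      have hp : 0 < |x - t| ^ (-σ) :=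
        Real.rpow_pos_of_pos (abs_pos.2 (sub_ne_zero.2 (ne_of_lt hxt))) _
      exact sub_eq_zero.1 ((mul_eq_zero.1 (hx hxt)).resolve_left hp.ne')
    · intro g hg hgc hgs
      have hgt : IsTest (Iio (-1)) g := ⟨hg, hgc, hgs.trans (Iio_subset_Iio (by linarith))⟩
      obtain ⟨v₁, v₂, hPg⟩ := hex g hgt
      obtain ⟨hv₁, hv₂, hd⟩ := hP g v₁ v₂ hgt hPg
      obtain ⟨δ, hδ, hgap⟩ := exists_gap hgs
      have hδ' : 0 < min δ (A - t) := lt_min hδ (by linarith)
      have key := cross_identity h1 h2 ha₁ ha₂ hgt.integrable hv₁ hv₂ hv₁' hv₂' hd hd' (t := t) hδ'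
        (by linarith [min_le_right δ (A - t)])
        (fun x hx => hgap x (by linarith [min_le_left δ (A - t)]))
        (fun x hx => hfA x (by linarith [min_le_right δ (A - t)])) hf1
      have int : ∀ {a : ℝ → ℝ} {α β : ℝ}, Coef a α β →
          Integrable (fun x => a x * g x * |x - t| ^ (-σ)) := fun {a α β} ha =>
        integrable_Phi hσ.le hδ (ha.integrable_mul hgt.integrable)
          (Eventually.of_forall fun x hx => by
            have h3 : ¬ (t - δ < x) := fun h => hx (by rw [hgap x h, mul_zero])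
            exact le_trans (by linarith [not_lt.1 h3]) (neg_le_abs _))
      have e : ∫ x, g x • (|x - t| ^ (-σ) * (a₁ x * Phi σ v₂' t - a₂ x * Phi σ v₁' t)) =
          Phi σ (fun x => a₁ x * g x) t * Phi σ v₂' t -
            Phi σ (fun x => a₂ x * g x) t * Phi σ v₁' t := by
        generalize Phi σ v₂' t = c
        generalize Phi σ v₁' t = d
        unfold Phi
        rw [← integral_mul_const, ← integral_mul_const,
          ← integral_sub ((int ha₁).mul_const c) ((int ha₂).mul_const d)]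
        congr 1; ext x; simp only [smul_eq_mul]; ring
      rw [e, key, sub_self]
  have hz := ae_zero_of_Phi hσ (hv₁'.1.sub hv₂'.1) (A := A) (C := 1) ?_ ?_
  · filter_upwards [hz] with x hx using sub_eq_zero.1 hx
  · filter_upwards [hsupp hv₁', hsupp hv₂'] with x e1 e2 hx
    simp [e1 hx, e2 hx]
  · intro t ht
    have int : ∀ {a v : ℝ → ℝ}, Src a f' v → Integrable (fun x => v x * |x - t| ^ (-σ)) :=
      fun hv => integrable_Phi hσ.le (sub_pos.2 ht) hv.1 ((hsupp hv).mono fun x hx h0 => by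
        have hm : x ∈ Icc A 1 := by by_contra hc; exact h0 (hx hc)
        exact le_trans (by linarith [hm.1]) (le_abs_self _))
    have := main t ht
    unfold Phi at this ⊢
    simp only [Pi.sub_apply, sub_mul]
    rw [integral_sub (int hv₁') (int hv₂'), this, sub_self]

end Pool.Agent.Lib.MP_37caee_an
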