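import Pool.Agent.Lib.MP_37caee_an.Cross

/-!
From equal exterior data to equal products `a u`.
-/

namespace Pool.Agent.Lib.MP_37caee_an

open MeasureTheory Filter Topology Set
open scoped ENNReal

variable {s α β : ℝ} {a : ℝ → ℝ}

theorem B_eq_Phi (hs0 : 0 < s) (ha : Coef a α β) {u g : ℝ → ℝ} (hu : Integrable u)
    (hg : Integrable g) {δ : ℝ} (hδ : 0 < δ) (h1 : ∀ᵐ x, 1 < x → u x = 0)
    (h2 : ∀ y, y < 1 + δ → g y = 0) :
    B s a u g = -2 * ∫ y, g y * (a y * Phi (1 + 2 * s) (fun x => a x * u x) y) := by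
  set σ := 1 + 2 * s with hσ
  set H : ℝ × ℝ → ℝ := fun z => (a z.1 * u z.1) * (a z.2 * g z.2) * |z.1 - z.2| ^ (-σ) with hH
  have hprod : Integrable (fun z : ℝ × ℝ => (a z.1 * u z.1) * (a z.2 * g z.2))
      ((volume : Measure ℝ).prod volume) :=
    (ha.integrable_mul hu).mul_prod (ha.integrable_mul hg)
  have hm : Measurable (fun z : ℝ × ℝ => |z.1 - z.2| ^ (-σ)) := by fun_prop
  have hHi : Integrable H ((volume : Measure ℝ).prod volume) := by
    refine (hprod.norm.mul_const (δ ^ (-σ))).mono' (hprod.1.mul hm.aestronglyMeasurable) ?_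
    filter_upwards [ae_fst h1] with z hz
    by_cases c1 : 1 < z.1
    · simp [hH, hz c1]
    by_cases c2 : z.2 < 1 + δ
    · simp [hH, h2 _ c2]
    simp only [hH]
    rw [norm_mul, Real.norm_of_nonneg (Real.rpow_nonneg (abs_nonneg _) _)]
    refine mul_le_mul_of_nonneg_left (Real.rpow_le_rpow_of_nonpos hδ ?_ (by linarith))
      (norm_nonneg _)
    exact le_trans (by linarith [not_lt.1 c1, not_lt.1 c2]) (neg_le_abs _)
  have hsw : ∫ z : ℝ × ℝ, H z.swap = ∫ z, H z := integral_prod_swap H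
  have hug : ∀ᵐ x, u x * g x = 0 := by
    filter_upwards [h1] with x hx
    by_cases c1 : 1 < x
    · rw [hx c1, zero_mul]
    · rw [h2 x (by linarith [not_lt.1 c1]), mul_zero]
  have e1 : B s a u g = ∫ z : ℝ × ℝ, (-H z - H z.swap) := by
    refine integral_congr_ae ?_
    filter_upwards [ae_fst hug, ae_snd hug] with z c1 c2
    simp only [hH, Prod.fst_swap, Prod.snd_swap]
    rw [quot_mul hs0, abs_sub_comm z.2 z.1, Real.rpow_neg (abs_nonneg _), div_eq_mul_inv]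
    linear_combination (a z.1 * a z.2 * (|z.1 - z.2| ^ σ)⁻¹) * (c1 + c2)
  have e2 : ∫ z, H z = ∫ y, g y * (a y * Phi σ (fun x => a x * u x) y) := by
    rw [Measure.volume_eq_prod, integral_prod_symm _ hHi]
    congr 1; ext y
    unfold Phi
    rw [← integral_const_mul, ← integral_const_mul]
    congr 1; ext x; simp only [hH]; ring
  have i1 : Integrable (fun z : ℝ × ℝ => -H z) := hHi.neg
  have i2 : Integrable (fun z : ℝ × ℝ => H z.swap) := hHi.swap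
  rw [e1, integral_sub i1 i2, integral_neg, hsw, e2]
  ring

theorem continuousOn_Phi {σ : ℝ} (hσ : 0 ≤ σ) {v : ℝ → ℝ} (hv : Integrable v)
    (h : ∀ᵐ x, 1 < x → v x = 0) : ContinuousOn (Phi σ v) (Ioi 1) := by
  have h1 := (analyticOnNhd_Psi hσ hv isOpen_Ioi h).continuousOn
  have h2 : ContinuousOn (fun y : ℝ => (Psi σ v y / om σ).re) (Ioi 1) :=
    Complex.continuous_re.comp_continuousOn ((h1.comp Complex.continuous_ofReal.continuousOn
      fun y hy => Or.inr (by simpa using hy)).div_const _)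
  refine h2.congr fun y hy => ?_
  simp only
  rw [Psi_right σ (h.mono fun x hx hxy => hx (lt_of_lt_of_le hy hxy)),
    mul_div_cancel_left₀ _ (om_ne_zero σ), Complex.ofReal_re]

theorem InHtilde.integrable {w : ℝ → ℝ} (hw : InHtilde s (Ioo (-1) 1) w) : Integrable w := by
  have h1 : IntegrableOn w (Ioo (-1) 1) := (hw.1.1.restrict _).integrable (by norm_num)
  refine (h1.integrable_indicator measurableSet_Ioo).congr ?_
  filter_upwards [hw.ae_zero measurableSet_Ioo] with x hx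
  by_cases c : x ∈ Ioo (-1 : ℝ) 1
  · rw [indicator_of_mem c]
  · rw [indicator_of_notMem c, hx c]

theorem Sol.ae_eq {f u : ℝ → ℝ} (h : Sol s a f u) : ∀ᵐ x, x ∉ Ioo (-1 : ℝ) 1 → u x = f x := by
  filter_upwards [h.2.1.ae_zero measurableSet_Ioo] with x hx hx'
  exact sub_eq_zero.1 (hx hx')

theorem Sol.integrable {f u : ℝ → ℝ} (h : Sol s a f u) (hf : Integrable f) : Integrable u := by
  have := h.2.1.integrable.add hf
  rwa [sub_add_cancel] at this

theorem Sol.src (ha : Coef a α β) {f u : ℝ → ℝ} (h : Sol s a f u) (hf : Integrable f) :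
    Src a f (fun x => a x * u x) :=
  ⟨ha.integrable_mul (h.integrable hf), h.ae_eq.mono fun x hx hx' => by simp only [hx hx']⟩

theorem Sol.symm (ha : Coef a α β) {f g u v : ℝ → ℝ} (hf : InHs s f) (hg : InHs s g)
    (hu : Sol s a f u) (hv : Sol s a g v) : B s a u g = B s a v f := by
  have h1 := hu.2.2 _ hv.2.1
  have h2 := hv.2.2 _ hu.2.1
  rw [B_comm, B_sub_left ha hv.1 hg hu.1] at h1
  rw [B_comm, B_sub_left ha hu.1 hf hv.1] at h2
  rw [B_comm u g, B_comm v f]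
  rw [B_comm v u] at h1
  linarith

/-- Equality of the data, for the form `B`. -/
def SameB (s : ℝ) (a₁ a₂ : ℝ → ℝ) : Prop :=
  ∀ f g u₁ u₂ : ℝ → ℝ, IsTest (Iio (-1)) f → IsTest (Ioi 1) g →
    Sol s a₁ f u₁ → Sol s a₂ f u₂ → B s a₁ u₁ g = B s a₂ u₂ g

theorem exists_gap' {g : ℝ → ℝ} {t : ℝ} (h : tsupport g ⊆ Ioi t) :
    ∃ δ > 0, ∀ x, x < t + δ → g x = 0 := by
  have ho : IsOpen (tsupport g)ᶜ := (isClosed_tsupport g).isOpen_compl
  obtain ⟨ε, hε, hb⟩ := Metric.isOpen_iff.1 ho t (fun h' => lt_irrefl t (h h'))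
  refine ⟨ε, hε, fun x hx => image_eq_zero_of_notMem_tsupport fun h' => ?_⟩
  have h1 : t < x := h h'
  exact hb (show x ∈ Metric.ball t ε by
    rw [Metric.mem_ball, Real.dist_eq, abs_lt]; constructor <;> linarith) h'

theorem Coef.locInt (ha : Coef a α β) {F : ℝ → ℝ} (hF : ContinuousOn F (Ioi 1)) :
    LocallyIntegrableOn (fun y => a y * F y) (Ioi 1) := by
  have b : MemLp a ⊤ volume :=
    memLp_top_of_bound ha.meas.aestronglyMeasurable β (Eventually.of_forall fun x => by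
      rw [Real.norm_of_nonneg (ha.apos x).le]; exact ha.ub x)
  exact LocallyIntegrableOn.mul_continuousOn
    ((b.locallyIntegrable le_top).locallyIntegrableOn _) hF isOpen_Ioi.isLocallyClosed

theorem integrable_test_mul {g F : ℝ → ℝ} (hg : IsTest (Ioi 1) g)
    (hF : LocallyIntegrableOn F (Ioi 1)) : Integrable (fun y => g y * F y) := by
  have h1 : IntegrableOn F (tsupport g) := hF.integrableOn_compact_subset hg.2.2 hg.2.1.isCompact
  have h2 : IntegrableOn (fun y => g y * F y) (tsupport g) :=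
    h1.continuousOn_mul hg.continuous.continuousOn hg.2.1.isCompact
  refine (integrableOn_iff_integrable_of_support_subset ?_).1 h2
  intro y hy
  exact subset_tsupport g fun h => hy (by simp [h])

section

variable {a₁ a₂ : ℝ → ℝ} {α₁ β₁ α₂ β₂ : ℝ} {p : ℝ≥0∞}

theorem data_ae (hs0 : 0 < s) (ha₁ : Coef a₁ α₁ β₁) (ha₂ : Coef a₂ α₂ β₂) (hS : SameB s a₁ a₂)
    {f u₁ u₂ : ℝ → ℝ} (hf : IsTest (Iio (-1)) f) (hu₁ : Sol s a₁ f u₁) (hu₂ : Sol s a₂ f u₂) :
    ∀ᵐ y, 1 < y → a₁ y * Phi (1 + 2 * s) (fun x => a₁ x * u₁ x) y =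
      a₂ y * Phi (1 + 2 * s) (fun x => a₂ x * u₂ x) y := by
  have hz : ∀ {a u : ℝ → ℝ}, Sol s a f u → ∀ᵐ x, 1 < x → u x = 0 := fun hu =>
    hu.ae_eq.mono fun x hx hx' => by
      rw [hx fun h => lt_asymm hx' h.2]
      exact hf.eq_zero fun h => by
        have : x < -1 := h
        linarith
  have loc : ∀ {a u : ℝ → ℝ} {α β : ℝ}, Coef a α β → Sol s a f u →
      LocallyIntegrableOn (fun y => a y * Phi (1 + 2 * s) (fun x => a x * u x) y) (Ioi 1) :=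
    fun ha hu => ha.locInt (continuousOn_Phi (by linarith) (hu.src ha hf.integrable).1
      ((hz hu).mono fun x hx hx' => by rw [hx hx', mul_zero]))
  have key := isOpen_Ioi.ae_eq_zero_of_integral_contDiff_smul_eq_zero
    ((loc ha₁ hu₁).sub (loc ha₂ hu₂)) ?_
  · filter_upwards [key] with y hy hy' using sub_eq_zero.1 (hy hy')
  · intro g hg hgc hgs
    have hgt : IsTest (Ioi 1) g := ⟨hg, hgc, hgs⟩
    obtain ⟨δ, hδ, hgap⟩ := exists_gap' hgs
    have h1 := hS f g u₁ u₂ hf hgt hu₁ hu₂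
    rw [B_eq_Phi hs0 ha₁ (hu₁.integrable hf.integrable) hgt.integrable hδ (hz hu₁) hgap,
      B_eq_Phi hs0 ha₂ (hu₂.integrable hf.integrable) hgt.integrable hδ (hz hu₂) hgap] at h1
    simp only [Pi.sub_apply, smul_eq_mul, mul_sub]
    rw [integral_sub (integrable_test_mul hgt (loc ha₁ hu₁))
      (integrable_test_mul hgt (loc ha₂ hu₂))]
    linarith

theorem prod_eq_left (hs0 : 0 < s) (hs1 : s < 1 / 2) (ha₁ : Coef a₁ α₁ β₁) (ha₂ : Coef a₂ α₂ β₂)
    (hp0 : p ≠ 0) (hp1 : p ≠ ⊤) (hm₁ : MemLp (fun x => a₁ x - 1) p volume)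
    (hm₂ : MemLp (fun x => a₂ x - 1) p volume) (hS : SameB s a₁ a₂)
    {f u₁ u₂ : ℝ → ℝ} (hf : IsTest (Iio (-1)) f) (hu₁ : Sol s a₁ f u₁) (hu₂ : Sol s a₂ f u₂) :
    (fun x => a₁ x * u₁ x) =ᵐ[volume] fun x => a₂ x * u₂ x := by
  refine sources_eq (σ := 1 + 2 * s) (by linarith) (by linarith) ha₁ ha₂ hp0 hp1 hm₁ hm₂
    (P := fun f v₁ v₂ => ∃ u₁ u₂, Sol s a₁ f u₁ ∧ Sol s a₂ f u₂ ∧
      v₁ = (fun x => a₁ x * u₁ x) ∧ v₂ = fun x => a₂ x * u₂ x) ?_ ?_ hf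
    ⟨u₁, u₂, hu₁, hu₂, rfl, rfl⟩
  · intro f hf
    obtain ⟨u₁, hu₁⟩ := exists_sol hs0 hs1 ha₁ (hf.inHs hs0 hs1)
    obtain ⟨u₂, hu₂⟩ := exists_sol hs0 hs1 ha₂ (hf.inHs hs0 hs1)
    exact ⟨_, _, u₁, u₂, hu₁, hu₂, rfl, rfl⟩
  · rintro f _ _ hf ⟨u₁, u₂, hu₁, hu₂, rfl, rfl⟩
    exact ⟨hu₁.src ha₁ hf.integrable, hu₂.src ha₂ hf.integrable, data_ae hs0 ha₁ ha₂ hS hf hu₁ hu₂⟩

end

/-- Reflection in the origin. -/
def refl (u : ℝ → ℝ) : ℝ → ℝ := fun x => u (-x)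

theorem refl_refl (u : ℝ → ℝ) : refl (refl u) = u := by ext x; simp [refl]

theorem refl_sub (u v : ℝ → ℝ) : refl (u - v) = refl u - refl v := rfl

theorem mp_neg : MeasurePreserving (fun x : ℝ => -x) volume volume :=
  Measure.measurePreserving_neg _

theorem mp_neg2 : MeasurePreserving (fun z : ℝ × ℝ => -z) volume volume :=
  mp_neg.prod mp_neg

theorem quot_refl (u : ℝ → ℝ) : quot s (refl u) = quot s u ∘ fun z : ℝ × ℝ => -z := by
  ext z
  simp only [quot, refl, Function.comp_apply, Prod.fst_neg, Prod.snd_neg]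
  rw [show -z.1 - -z.2 = -(z.1 - z.2) by ring, abs_neg]

theorem InHs.refl {u : ℝ → ℝ} (hu : InHs s u) : InHs s (refl u) :=
  ⟨hu.1.comp_measurePreserving mp_neg, by
    rw [quot_refl]; exact hu.2.comp_measurePreserving mp_neg2⟩

theorem IsTest.refl {U V : Set ℝ} {φ : ℝ → ℝ} (h : IsTest U φ) (hUV : ∀ x, -x ∈ U → x ∈ V) :
    IsTest V (refl φ) := by
  refine ⟨h.1.comp contDiff_neg, h.2.1.comp_homeomorph (Homeomorph.neg ℝ), fun x hx => ?_⟩
  have e := tsupport_comp_eq_preimage φ (Homeomorph.neg ℝ)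
  have hx' : x ∈ tsupport (φ ∘ Homeomorph.neg ℝ) := hx
  rw [e] at hx'
  exact hUV x (h.2.2 hx')

theorem InHtilde.refl (hs0 : 0 < s) (hs1 : s < 1 / 2) {w : ℝ → ℝ}
    (hw : InHtilde s (Ioo (-1) 1) w) : InHtilde s (Ioo (-1) 1) (refl w) := by
  obtain ⟨hw0, φ, hφ, h1, h2⟩ := hw
  refine ⟨hw0.refl, fun k => MP_37caee_an.refl (φ k),
    fun k => (hφ k).refl fun x hx => ⟨by linarith [hx.2], by linarith [hx.1]⟩, ?_, ?_⟩
  · refine h1.congr fun k => ?_
    exact (eLpNorm_comp_measurePreserving (hw0.sub ((hφ k).inHs hs0 hs1)).1.1 mp_neg).symm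
  · refine h2.congr fun k => ?_
    rw [← refl_sub, quot_refl]
    exact (eLpNorm_comp_measurePreserving (hw0.sub ((hφ k).inHs hs0 hs1)).2.1 mp_neg2).symm

theorem B_refl (u v : ℝ → ℝ) : B s (refl a) (refl u) (refl v) = B s a u v := by
  unfold B
  rw [quot_refl, quot_refl]
  exact mp_neg2.integral_comp (Homeomorph.neg (ℝ × ℝ)).measurableEmbedding
    (fun z : ℝ × ℝ => a z.1 * a z.2 * (quot s u z * quot s v z))

theorem Coef.refl (ha : Coef a α β) : Coef (refl a) α β :=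
  ⟨ha.meas.comp measurable_neg, ha.pos, fun _ => ha.lb _, fun _ => ha.ub _⟩

theorem Sol.refl (hs0 : 0 < s) (hs1 : s < 1 / 2) {f u : ℝ → ℝ} (h : Sol s a f u) :
    Sol s (refl a) (refl f) (refl u) := by
  refine ⟨h.1.refl, h.2.1.refl hs0 hs1, fun φ hφ => ?_⟩
  rw [← refl_refl φ, B_refl]
  exact h.2.2 _ (hφ.refl hs0 hs1)

section

variable {a₁ a₂ : ℝ → ℝ} {α₁ β₁ α₂ β₂ : ℝ} {p : ℝ≥0∞}

theorem SameB.refl (hs0 : 0 < s) (hs1 : s < 1 / 2) (ha₁ : Coef a₁ α₁ β₁) (ha₂ : Coef a₂ α₂ β₂)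
    (hS : SameB s a₁ a₂) : SameB s (refl a₁) (refl a₂) := by
  intro f g u₁ u₂ hf hg hu₁ hu₂
  have hf' : IsTest (Ioi 1) (MP_37caee_an.refl f) := hf.refl fun x hx => by
    have : -x < -1 := hx
    show 1 < x
    linarith
  have hg' : IsTest (Iio (-1)) (MP_37caee_an.refl g) := hg.refl fun x hx => by
    have : 1 < -x := hx
    show x < -1
    linarith
  have k₁ := hu₁.refl hs0 hs1
  have k₂ := hu₂.refl hs0 hs1
  rw [refl_refl] at k₁ k₂
  obtain ⟨v₁, hv₁⟩ := exists_sol hs0 hs1 ha₁ (hg'.inHs hs0 hs1)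
  obtain ⟨v₂, hv₂⟩ := exists_sol hs0 hs1 ha₂ (hg'.inHs hs0 hs1)
  rw [← B_refl, ← B_refl (a := MP_37caee_an.refl a₂), refl_refl, refl_refl,
    Sol.symm ha₁ (hf'.inHs hs0 hs1) (hg'.inHs hs0 hs1) k₁ hv₁,
    Sol.symm ha₂ (hf'.inHs hs0 hs1) (hg'.inHs hs0 hs1) k₂ hv₂]
  exact hS _ _ _ _ hg' hf' hv₁ hv₂

theorem prod_eq_right (hs0 : 0 < s) (hs1 : s < 1 / 2) (ha₁ : Coef a₁ α₁ β₁) (ha₂ : Coef a₂ α₂ β₂)
    (hp0 : p ≠ 0) (hp1 : p ≠ ⊤) (hm₁ : MemLp (fun x => a₁ x - 1) p volume)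
    (hm₂ : MemLp (fun x => a₂ x - 1) p volume) (hS : SameB s a₁ a₂)
    {g u₁ u₂ : ℝ → ℝ} (hg : IsTest (Ioi 1) g) (hu₁ : Sol s a₁ g u₁) (hu₂ : Sol s a₂ g u₂) :
    (fun x => a₁ x * u₁ x) =ᵐ[volume] fun x => a₂ x * u₂ x := by
  have hg' : IsTest (Iio (-1)) (refl g) := hg.refl fun x hx => by
    have : 1 < -x := hx
    show x < -1
    linarith
  have h := prod_eq_left hs0 hs1 ha₁.refl ha₂.refl hp0 hp1 (hm₁.comp_measurePreserving mp_neg)
    (hm₂.comp_measurePreserving mp_neg) (hS.refl hs0 hs1 ha₁ ha₂) hg' (hu₁.refl hs0 hs1)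
    (hu₂.refl hs0 hs1)
  filter_upwards [mp_neg.quasiMeasurePreserving.ae h] with x hx
  simpa [refl] using hx

end

end Pool.Agent.Lib.MP_37caee_an
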