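import Mathlib

/-!
Definitions for the inverse fractional conductivity problem on the real line (dimension one).
-/

namespace Pool.Agent.Lib.MP_37caee_an

open MeasureTheory Filter Topology
open scoped ContDiff

/-- The Gagliardo difference quotient `(u x - u y) / |x - y| ^ ((1 + 2 s) / 2)`. -/
noncomputable def quot (s : ℝ) (u : ℝ → ℝ) (z : ℝ × ℝ) : ℝ :=
  (u z.1 - u z.2) / |z.1 - z.2| ^ ((1 + 2 * s) / 2)

/-- `φ` is a smooth function with compact support inside `U`. -/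
def IsTest (U : Set ℝ) (φ : ℝ → ℝ) : Prop :=
  ContDiff ℝ ∞ φ ∧ HasCompactSupport φ ∧ tsupport φ ⊆ U

/-- `u` lies in the fractional Sobolev space of order `s`: `u` is square integrable and its
Gagliardo seminorm is finite. -/
def InHs (s : ℝ) (u : ℝ → ℝ) : Prop :=
  MemLp u 2 volume ∧ MemLp (quot s u) 2 volume

/-- `w` lies in the closure, in the fractional Sobolev norm of order `s`, of the smooth functions
with compact support inside `Ω`. -/
def InHtilde (s : ℝ) (Ω : Set ℝ) (w : ℝ → ℝ) : Prop :=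
  InHs s w ∧ ∃ φ : ℕ → ℝ → ℝ, (∀ k, IsTest Ω (φ k)) ∧
    Tendsto (fun k => eLpNorm (w - φ k) 2 volume) atTop (𝓝 0) ∧
    Tendsto (fun k => eLpNorm (quot s (w - φ k)) 2 volume) atTop (𝓝 0)

/-- The normalising constant of the fractional Laplacian in dimension one. -/
noncomputable def cns (s : ℝ) : ℝ :=
  4 ^ s * Real.Gamma (1 / 2 + s) / (√Real.pi * |Real.Gamma (-s)|)

/-- The bilinear form of the fractional conductivity equation. -/
noncomputable def form (s : ℝ) (γ u φ : ℝ → ℝ) : ℝ :=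
  cns s / 2 * ∫ z : ℝ × ℝ,
    √(γ z.1) * √(γ z.2) / |z.1 - z.2| ^ (1 + 2 * s) * (u z.1 - u z.2) * (φ z.1 - φ z.2)

/-- `u` solves the fractional conductivity equation in `Ω` with exterior value `f`. -/
def IsSolution (s : ℝ) (Ω : Set ℝ) (γ f u : ℝ → ℝ) : Prop :=
  InHs s u ∧ InHtilde s Ω (u - f) ∧ ∀ φ, InHtilde s Ω φ → form s γ u φ = 0

/-- A conductivity (measurable, between two positive constants almost everywhere) whose
background deviation `√γ - 1` is `1 / s`-integrable. -/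
def Admissible (s : ℝ) (γ : ℝ → ℝ) : Prop :=
  AEStronglyMeasurable γ volume ∧
    (∃ a b : ℝ, 0 < a ∧ a < b ∧ ∀ᵐ x, a ≤ γ x ∧ γ x ≤ b) ∧
    MemLp (fun x => √(γ x) - 1) (ENNReal.ofReal (1 / s)) volume

/-- The exterior Dirichlet-to-Neumann data of `γ₁` and `γ₂` agree for sources in `W₁` and
receivers in `W₂`. -/
def SameData (s : ℝ) (Ω W₁ W₂ : Set ℝ) (γ₁ γ₂ : ℝ → ℝ) : Prop :=
  ∀ f g u₁ u₂ : ℝ → ℝ, IsTest W₁ f → IsTest W₂ g →
    IsSolution s Ω γ₁ f u₁ → IsSolution s Ω γ₂ f u₂ → form s γ₁ u₁ g = form s γ₂ u₂ g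

end Pool.Agent.Lib.MP_37caee_an
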