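import Pool.Agent.Lib.MP_37caee_an.Data

/-!
Approximation of the constant solution and the uniqueness theorem.
-/

namespace Pool.Agent.Lib.MP_37caee_an

open MeasureTheory Filter Topology Set
open scoped ENNReal ContDiff

/-- A fixed bump function, equal to one on `[-1, 1]` and vanishing outside `(-2, 2)`. -/
noncomputable def bump : ContDiffBump (0 : ℝ) := ⟨1, 2, one_pos, one_lt_two⟩

theorem bump_one {x : ℝ} (h : |x| ≤ 1) : bump x = 1 :=
  bump.one_of_mem_closedBall (by simpa [bump] using h)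

theorem bump_zero {x : ℝ} (h : 2 ≤ |x|) : bump x = 0 :=
  bump.zero_of_le_dist (by simpa [bump] using h)

theorem bump_osc (x y : ℝ) : |bump x - bump y| ≤ 1 := by
  have := bump.nonneg (x := x)
  have := bump.nonneg (x := y)
  have := bump.le_one (x := x)
  have := bump.le_one (x := y)
  rw [abs_le]; constructor <;> linarith

theorem bump_lip : ∃ L : ℝ, 0 < L ∧ ∀ x y, |bump x - bump y| ≤ L * |x - y| := by
  obtain ⟨L, hL⟩ := (bump.contDiff (n := 1)).lipschitzWith_of_hasCompactSupport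
    bump.hasCompactSupport (by simp)
  refine ⟨L + 1, by positivity, fun x y => ?_⟩
  have a := hL.dist_le_mul x y
  rw [Real.dist_eq, Real.dist_eq] at a
  nlinarith [abs_nonneg (x - y)]

/-- The bump function centred at `c` with width `r`. -/
noncomputable def bmp (c r x : ℝ) : ℝ := bump ((x - c) / r)

theorem bmp_one {c r x : ℝ} (hr : 0 < r) (h : |x - c| ≤ r) : bmp c r x = 1 :=
  bump_one (by rw [abs_div, abs_of_pos hr, div_le_one hr]; exact h)

theorem bmp_zero {c r x : ℝ} (hr : 0 < r) (h : 2 * r ≤ |x - c|) : bmp c r x = 0 :=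
  bump_zero (by rw [abs_div, abs_of_pos hr, le_div_iff₀ hr]; exact h)

theorem bmp_test {c r : ℝ} (hr : 0 < r) : IsTest univ (bmp c r) := by
  refine ⟨bump.contDiff.comp ((contDiff_id.sub contDiff_const).div_const r), ?_, subset_univ _⟩
  refine HasCompactSupport.intro (isCompact_Icc (a := c - 2 * r) (b := c + 2 * r)) fun x hx => ?_
  refine bmp_zero hr ?_
  by_contra hc
  have := abs_lt.1 (not_le.1 hc)
  exact hx ⟨by linarith [this.1], by linarith [this.2]⟩

theorem bmp_lip {L : ℝ} (hL : ∀ x y, |bump x - bump y| ≤ L * |x - y|) {c r : ℝ} (hr : 0 < r)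
    (x y : ℝ) : |bmp c r x - bmp c r y| ≤ 1 * (L / r * |x - y|) := by
  refine (hL _ _).trans (le_of_eq ?_)
  rw [← sub_div, sub_sub_sub_cancel_right, abs_div, abs_of_pos hr]
  ring

theorem isTest_indicator {Θ : ℝ → ℝ} (hΘ : IsTest univ Θ) {U C : Set ℝ} (hU : IsOpen U)
    (hC : IsClosed C) (hCU : C ⊆ U) (h0 : ∀ x ∈ U, x ∉ C → Θ x = 0) :
    IsTest U (U.indicator Θ) := by
  have hz : ∀ x, x ∉ C → U.indicator Θ x = 0 := fun x hx => by
    by_cases c : x ∈ U
    · rw [indicator_of_mem c, h0 x c hx]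
    · rw [indicator_of_notMem c]
  refine ⟨contDiff_iff_contDiffAt.2 fun x => ?_, hΘ.2.1.mono ?_, ?_⟩
  · by_cases c : x ∈ U
    · refine hΘ.1.contDiffAt.congr_of_eventuallyEq ?_
      filter_upwards [hU.mem_nhds c] with y hy using indicator_of_mem hy _
    · refine (contDiffAt_const (c := (0 : ℝ))).congr_of_eventuallyEq ?_
      filter_upwards [hC.isOpen_compl.mem_nhds fun h => c (hCU h)] with y hy using hz y hy
  · intro x hx h
    exact hx (by by_cases c : x ∈ U <;> simp [c, h])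
  · refine (closure_minimal (fun x hx => ?_) hC).trans hCU
    by_contra hc
    exact hx (hz x hc)

/-- The cut-off that approximates the constant one. -/
noncomputable def cut (ε : ℝ) : ℝ → ℝ := bmp 0 ε⁻¹ - bmp 1 ε - bmp (-1) ε

theorem cut_test {ε : ℝ} (h0 : 0 < ε) : IsTest univ (cut ε) := by
  have := ((bmp_test (c := 0) (inv_pos.2 h0)).add (bmp_test (c := 1) h0).neg).add
    (bmp_test (c := -1) h0).neg
  simpa only [cut, sub_eq_add_neg] using this

theorem four_le_inv {ε : ℝ} (h0 : 0 < ε) (h1 : ε ≤ 1 / 4) : 4 ≤ ε⁻¹ := by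
  rw [le_inv_comm₀ (by norm_num) h0]; linarith

theorem cut_right {ε x : ℝ} (h0 : 0 < ε) (h1 : ε ≤ 1 / 4) (h : |x - 1| ≤ ε) : cut ε x = 0 := by
  have a := abs_le.1 h
  have b := four_le_inv h0 h1
  simp only [cut, Pi.sub_apply]
  rw [bmp_one (inv_pos.2 h0) (abs_le.2 ⟨by linarith [a.1], by linarith [a.2]⟩), bmp_one h0 h,
    bmp_zero h0 (le_trans (by linarith [a.1]) (le_abs_self _))]
  ring

theorem cut_left {ε x : ℝ} (h0 : 0 < ε) (h1 : ε ≤ 1 / 4) (h : |x - -1| ≤ ε) : cut ε x = 0 := by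
  have a := abs_le.1 h
  have b := four_le_inv h0 h1
  simp only [cut, Pi.sub_apply]
  rw [bmp_one (inv_pos.2 h0) (abs_le.2 ⟨by linarith [a.1], by linarith [a.2]⟩), bmp_one h0 h,
    bmp_zero h0 (le_trans (by linarith [a.2]) (neg_le_abs _))]
  ring

theorem cut_one {ε x : ℝ} (h0 : 0 < ε) (h1 : |x - 0| ≤ ε⁻¹) (h2 : 2 * ε ≤ |x - 1|)
    (h3 : 2 * ε ≤ |x - -1|) : cut ε x = 1 := by
  simp only [cut, Pi.sub_apply]
  rw [bmp_one (inv_pos.2 h0) h1, bmp_zero h0 h2, bmp_zero h0 h3]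
  ring

theorem cut_test_left {ε : ℝ} (h0 : 0 < ε) (h1 : ε ≤ 1 / 4) :
    IsTest (Iio (-1)) ((Iio (-1)).indicator (cut ε)) :=
  isTest_indicator (cut_test h0) isOpen_Iio (isClosed_Iic (a := -1 - ε))
    (fun x hx => by have : x ≤ -1 - ε := hx; show x < -1; linarith)
    fun x hx hx' => cut_left h0 h1 (abs_le.2 ⟨by
      have : ¬ x ≤ -1 - ε := hx'
      linarith [not_le.1 this], by have : x < -1 := hx; linarith⟩)

theorem cut_test_right {ε : ℝ} (h0 : 0 < ε) (h1 : ε ≤ 1 / 4) :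
    IsTest (Ioi 1) ((Ioi 1).indicator (cut ε)) :=
  isTest_indicator (cut_test h0) isOpen_Ioi (isClosed_Ici (a := 1 + ε))
    (fun x hx => by have : 1 + ε ≤ x := hx; show 1 < x; linarith)
    fun x hx hx' => cut_right h0 h1 (abs_le.2 ⟨by have : 1 < x := hx; linarith, by
      have : ¬ 1 + ε ≤ x := hx'
      linarith [not_le.1 this]⟩)

theorem cut_test_mid {ε : ℝ} (h0 : 0 < ε) (h1 : ε ≤ 1 / 4) :
    IsTest (Ioo (-1) 1) ((Ioo (-1) 1).indicator (cut ε)) := by
  refine isTest_indicator (cut_test h0) isOpen_Ioo (isClosed_Icc (a := -1 + ε) (b := 1 - ε))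
    (fun x hx => ⟨by linarith [hx.1], by linarith [hx.2]⟩) fun x hx hx' => ?_
  rcases lt_or_ge x (-1 + ε) with h | h
  · exact cut_left h0 h1 (abs_le.2 ⟨by linarith [hx.1], by linarith⟩)
  · have : ¬ x ≤ 1 - ε := fun h' => hx' ⟨h, h'⟩
    exact cut_right h0 h1 (abs_le.2 ⟨by linarith [not_le.1 this], by linarith [hx.2]⟩)

theorem cut_split {ε : ℝ} (h0 : 0 < ε) (h1 : ε ≤ 1 / 4) :
    cut ε = (Iio (-1)).indicator (cut ε) + (Ioi 1).indicator (cut ε) +
      (Ioo (-1) 1).indicator (cut ε) := by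
  ext x
  simp only [Pi.add_apply]
  rcases lt_trichotomy x (-1) with h | rfl | h
  · rw [indicator_of_mem (show x ∈ Iio (-1) from h),
      indicator_of_notMem (show x ∉ Ioi 1 from fun h' => by have : 1 < x := h'; linarith),
      indicator_of_notMem (show x ∉ Ioo (-1) 1 from fun h' => by linarith [h'.1])]
    ring
  · have : cut ε (-1) = 0 := cut_left h0 h1 (by simpa using h0.le)
    simp [indicator, this]
  · rw [indicator_of_notMem (show x ∉ Iio (-1) from fun h' => lt_asymm h h')]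
    rcases lt_trichotomy x 1 with h' | rfl | h'
    · rw [indicator_of_notMem (show x ∉ Ioi 1 from fun h'' => lt_asymm h' h''),
        indicator_of_mem (show x ∈ Ioo (-1) 1 from ⟨h, h'⟩)]
      ring
    · have : cut ε 1 = 0 := cut_right h0 h1 (by simpa using h0.le)
      simp [indicator, this]
    · rw [indicator_of_mem (show x ∈ Ioi 1 from h'),
        indicator_of_notMem (show x ∉ Ioo (-1) 1 from fun h'' => lt_asymm h' h''.2)]
      ring

/-- The error term. -/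
noncomputable def err (s L ε : ℝ) : ℝ :=
  (4 * (L * ε) ^ (2 * s) + 16 * (L ^ (2 * s) * ε ^ (1 - 2 * s))) * kapI (1 + 2 * s)

theorem tendsto_err {s : ℝ} (hs0 : 0 < s) (hs1 : s < 1 / 2) (L : ℝ) {e : ℕ → ℝ}
    (he : Tendsto e atTop (𝓝 0)) : Tendsto (fun n => err s L (e n)) atTop (𝓝 0) := by
  have h1 := (he.const_mul L).rpow_const (p := 2 * s) (Or.inr (by linarith))
  have h2 := he.rpow_const (p := 1 - 2 * s) (Or.inr (by linarith))
  rw [mul_zero, Real.zero_rpow (by linarith)] at h1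
  rw [Real.zero_rpow (by linarith)] at h2
  have h3 := ((h1.const_mul 4).add ((h2.const_mul (L ^ (2 * s))).const_mul 16)).mul_const
    (kapI (1 + 2 * s))
  simpa [err] using h3

theorem bmp_small {s : ℝ} (hs0 : 0 < s) (hs1 : s < 1 / 2) {L : ℝ} (hL0 : 0 < L)
    (hL : ∀ x y, |bump x - bump y| ≤ L * |x - y|) (c : ℝ) {ε : ℝ} (h0 : 0 < ε) :
    ∫ z, quot s (bmp c ε) z ^ 2 ≤ 8 * (L ^ (2 * s) * ε ^ (1 - 2 * s)) * kapI (1 + 2 * s) := by
  have h := (quot_bound hs0 hs1 (N := Ioo (c - 2 * ε) (c + 2 * ε)) measurableSet_Ioo (by simp)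
    (M := 1) (lam := L / ε) zero_le_one (by positivity) (bmp_test (c := c) h0).continuous
    (fun x hx => bmp_zero h0 (by
      by_contra hc
      have := abs_lt.1 (not_le.1 hc)
      exact hx ⟨by linarith [this.1], by linarith [this.2]⟩))
    (fun x y => bump_osc _ _) (bmp_lip hL h0)).2
  refine h.trans (le_of_eq ?_)
  rw [Real.volume_real_Ioo_of_le (by linarith), Real.div_rpow hL0.le h0.le, Real.rpow_sub h0,
    Real.rpow_one]
  ring

variable {s α β : ℝ} {a : ℝ → ℝ}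

theorem energy (hs0 : 0 < s) (hs1 : s < 1 / 2) (ha : Coef a α β) {L : ℝ} (hL0 : 0 < L)
    (hL : ∀ x y, |bump x - bump y| ≤ L * |x - y|) {ε : ℝ} (h0 : 0 < ε) {w : ℝ → ℝ}
    (hw : InHtilde s (Ioo (-1) 1) w) (hB : B s a (w + cut ε) w = 0) :
    ∫ x, w x ^ 2 ≤ 4 ^ (1 + 2 * s) * (3 * (β / α) ^ 4 * err s L ε) := by
  refine (poincare hs0 hw.1 (hw.ae_zero measurableSet_Ioo)).trans
    (mul_le_mul_of_nonneg_left ?_ (by positivity))
  set Rg : Set (ℝ × ℝ) := {z | z.1 ∈ Ioo (-1 : ℝ) 1 ∨ z.2 ∈ Ioo (-1 : ℝ) 1} with hRg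
  have hRm : MeasurableSet Rg :=
    (measurable_fst measurableSet_Ioo).union (measurable_snd measurableSet_Ioo)
  set F : ℝ × ℝ → ℝ := Rg.indicator (quot s (bmp 0 ε⁻¹)) with hF
  have hχ := bmp_test (c := 0) (inv_pos.2 h0)
  obtain ⟨hFm, hFb⟩ := sq_bound hs0 hs1 (N := Ioo (-1 : ℝ) 1) measurableSet_Ioo (by simp)
    (M := 1) (lam := L * ε) (by positivity) (F := F)
    ((aesm_quot s hχ.continuous.aestronglyMeasurable).indicator hRm)
    (fun z c1 c2 => indicator_of_notMem (fun h => h.elim c1 c2) _)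
    (fun z => by
      have key : quot s (bmp 0 ε⁻¹) z ^ 2 ≤
          1 ^ 2 * (min 1 (L * ε * |z.1 - z.2|) ^ 2 / |z.1 - z.2| ^ (1 + 2 * s)) := by
        rw [quot_sq hs0, one_pow, one_mul]
        refine div_le_div_of_nonneg_right ?_ (by positivity)
        rw [← sq_abs]
        refine pow_le_pow_left₀ (abs_nonneg _) (le_min (bump_osc _ _) ?_) 2
        have := bmp_lip hL (c := 0) (inv_pos.2 h0) z.1 z.2
        rwa [one_mul, div_inv_eq_mul] at this
      by_cases c : z ∈ Rg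
      · rw [hF, indicator_of_mem c]; exact key
      · rw [hF, indicator_of_notMem c]
        refine le_trans ?_ key
        simp only [ne_eq, OfNat.ofNat_ne_zero, not_false_eq_true, zero_pow]
        exact sq_nonneg _)
  rw [Real.volume_real_Ioo_of_le (by norm_num)] at hFb
  have hp := ((bmp_test (c := 1) h0).inHs hs0 hs1).2
  have hm := ((bmp_test (c := -1) h0).inHs hs0 hs1).2
  have hpb := bmp_small hs0 hs1 hL0 hL 1 h0
  have hmb := bmp_small hs0 hs1 hL0 hL (-1) h0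
  have hα := ha.pos
  have hβ := ha.bpos
  have hint := integrable_B ha (hw.1.add ((cut_test h0).inHs hs0 hs1)) hw.1
  set K : ℝ := 3 * (β / α) ^ 4 with hK
  have hK0 : 0 ≤ K := by positivity
  have i1 : Integrable (fun z : ℝ × ℝ => 2 / α ^ 2 *
      (a z.1 * a z.2 * (quot s (w + cut ε) z * quot s w z))) := hint.const_mul _
  have i2 : Integrable (fun z : ℝ × ℝ =>
      F z ^ 2 + quot s (bmp 1 ε) z ^ 2) := hFm.integrable_sq.add hp.integrable_sq
  have i3 : Integrable (fun z : ℝ × ℝ =>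
      F z ^ 2 + quot s (bmp 1 ε) z ^ 2 + quot s (bmp (-1) ε) z ^ 2) := i2.add hm.integrable_sq
  have i4 : Integrable (fun z : ℝ × ℝ =>
      K * (F z ^ 2 + quot s (bmp 1 ε) z ^ 2 + quot s (bmp (-1) ε) z ^ 2)) := i3.const_mul _
  have hle : ∫ z, quot s w z ^ 2 ≤ ∫ z : ℝ × ℝ, (2 / α ^ 2 *
      (a z.1 * a z.2 * (quot s (w + cut ε) z * quot s w z)) +
      K * (F z ^ 2 + quot s (bmp 1 ε) z ^ 2 + quot s (bmp (-1) ε) z ^ 2)) := by
    refine integral_mono_ae hw.1.2.integrable_sq (i1.add i4) ?_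
    filter_upwards [ae_fst (hw.ae_zero measurableSet_Ioo), ae_snd (hw.ae_zero measurableSet_Ioo)]
      with z c1 c2
    by_cases c : z ∈ Rg
    · simp only [cut, quot_add, quot_sub, Pi.add_apply, Pi.sub_apply, hF, indicator_of_mem c]
      generalize quot s w z = p
      generalize quot s (bmp 0 ε⁻¹) z = q1
      generalize quot s (bmp 1 ε) z = q2
      generalize quot s (bmp (-1) ε) z = q3
      have l := ha.mul_lb z.1 z.2
      have u := ha.mul_ub z.1 z.2
      generalize a z.1 * a z.2 = A at l u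
      set q := q1 - q2 - q3 with hq
      have hq2 : q ^ 2 ≤ 3 * (q1 ^ 2 + q2 ^ 2 + q3 ^ 2) := by
        rw [hq]; nlinarith [sq_nonneg (q1 + q2), sq_nonneg (q1 + q3), sq_nonneg (q2 - q3)]
      have hα2 : 0 < α ^ 2 := by positivity
      set t := A / α ^ 2 with ht
      have t1 : 1 ≤ t := (one_le_div hα2).2 l
      have t2 : t ≤ (β / α) ^ 2 := by rw [div_pow]; exact div_le_div_of_nonneg_right u hα2.le
      have t3 : t ^ 2 ≤ (β / α) ^ 4 := by
        rw [show (β / α) ^ 4 = ((β / α) ^ 2) ^ 2 by ring]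
        exact pow_le_pow_left₀ (by linarith) t2 2
      have e : 2 / α ^ 2 * (A * ((p + q) * p)) = 2 * t * ((p + q) * p) := by rw [ht]; ring
      rw [e, hK]
      have s1 : t ^ 2 * q ^ 2 ≤ (β / α) ^ 4 * (3 * (q1 ^ 2 + q2 ^ 2 + q3 ^ 2)) :=
        mul_le_mul t3 hq2 (sq_nonneg _) (by positivity)
      nlinarith [sq_nonneg (p + t * q), mul_nonneg (sub_nonneg.2 t1) (sq_nonneg p)]
    · have hz : quot s w z = 0 := by
        simp only [quot, c1 fun h => c (Or.inl h), c2 fun h => c (Or.inr h), sub_self, zero_div]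
      rw [hz]
      simp only [mul_zero, zero_add, ne_eq, OfNat.ofNat_ne_zero, not_false_eq_true, zero_pow]
      positivity
  rw [integral_add i1 i4, integral_const_mul, integral_const_mul, integral_add i2 hm.integrable_sq,
    integral_add hFm.integrable_sq hp.integrable_sq] at hle
  unfold B at hB
  rw [hB, mul_zero, zero_add] at hle
  refine hle.trans (mul_le_mul_of_nonneg_left ?_ hK0)
  unfold err
  linarith

theorem approx (hs0 : 0 < s) (hs1 : s < 1 / 2) (ha : Coef a α β) {L : ℝ} (hL0 : 0 < L)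
    (hL : ∀ x y, |bump x - bump y| ≤ L * |x - y|) {ε : ℝ} (h0 : 0 < ε) (h1 : ε ≤ 1 / 4)
    {u v : ℝ → ℝ} (hu : Sol s a ((Iio (-1)).indicator (cut ε)) u)
    (hv : Sol s a ((Ioi 1).indicator (cut ε)) v) :
    MemLp (u + v - cut ε) 2 volume ∧
      ∫ x, (u + v - cut ε) x ^ 2 ≤ 4 ^ (1 + 2 * s) * (3 * (β / α) ^ 4 * err s L ε) := by
  have hw := (hu.2.1.add hs0 hs1 hv.2.1).sub hs0 hs1 ((cut_test_mid h0 h1).inHtilde hs0 hs1)
  have e : u - (Iio (-1)).indicator (cut ε) + (v - (Ioi 1).indicator (cut ε)) -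
      (Ioo (-1) 1).indicator (cut ε) = u + v - cut ε := by
    conv_rhs => rw [cut_split h0 h1]
    abel
  rw [e] at hw
  refine ⟨hw.1.1, energy hs0 hs1 ha hL0 hL h0 hw ?_⟩
  rw [sub_add_cancel, B_add_left ha hu.1 hv.1 hw.1, hu.2.2 _ hw, hv.2.2 _ hw, add_zero]

theorem coef_eq (hs0 : 0 < s) (hs1 : s < 1 / 2) {a₁ a₂ : ℝ → ℝ} {α₁ β₁ α₂ β₂ : ℝ} {p : ℝ≥0∞}
    (ha₁ : Coef a₁ α₁ β₁) (ha₂ : Coef a₂ α₂ β₂)
    (hp0 : p ≠ 0) (hp1 : p ≠ ⊤) (hm₁ : MemLp (fun x => a₁ x - 1) p volume)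
    (hm₂ : MemLp (fun x => a₂ x - 1) p volume) (hS : SameB s a₁ a₂) : a₁ =ᵐ[volume] a₂ := by
  obtain ⟨L, hL0, hL⟩ := bump_lip
  set e : ℕ → ℝ := fun n => 1 / ((n : ℝ) + 4) with he
  have he0 : ∀ n, 0 < e n := fun n => by positivity
  have he1 : ∀ n, e n ≤ 1 / 4 := fun n =>
    one_div_le_one_div_of_le (by norm_num) (by linarith [n.cast_nonneg (α := ℝ)])
  have het : Tendsto e atTop (𝓝 0) :=
    tendsto_const_nhds.div_atTop (tendsto_atTop_add_const_right _ _ tendsto_natCast_atTop_atTop)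
  set h : ℕ → ℝ → ℝ := fun n x => (a₁ x - a₂ x) * cut (e n) x with hh
  have hbd : ∀ {a : ℝ → ℝ} {α β : ℝ}, Coef a α β → ∀ {w : ℝ → ℝ}, MemLp w 2 volume →
      MemLp (fun x => a x * w x) 2 volume := fun {a α β} ha {w} hw =>
    hw.of_le_mul (c := β) (ha.meas.aestronglyMeasurable.mul hw.1) (Eventually.of_forall fun x => by
      rw [norm_mul, Real.norm_of_nonneg (ha.apos x).le]
      exact mul_le_mul_of_nonneg_right (ha.ub x) (norm_nonneg _))
  have hmem : ∀ n, MemLp (h n) 2 volume := fun n => by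
    have c := ((cut_test (he0 n)).inHs hs0 hs1).1
    refine ((hbd ha₁ c).sub (hbd ha₂ c)).ae_eq (Eventually.of_forall fun x => ?_)
    simp only [hh, sub_mul, Pi.sub_apply]
  have hbound : ∀ n, ∫ x, h n x ^ 2 ≤
      2 * β₁ ^ 2 * (4 ^ (1 + 2 * s) * (3 * (β₁ / α₁) ^ 4 * err s L (e n))) +
        2 * β₂ ^ 2 * (4 ^ (1 + 2 * s) * (3 * (β₂ / α₂) ^ 4 * err s L (e n))) := by
    intro n
    have tf := cut_test_left (he0 n) (he1 n)
    have tg := cut_test_right (he0 n) (he1 n)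
    obtain ⟨u₁, hu₁⟩ := exists_sol hs0 hs1 ha₁ (tf.inHs hs0 hs1)
    obtain ⟨u₂, hu₂⟩ := exists_sol hs0 hs1 ha₂ (tf.inHs hs0 hs1)
    obtain ⟨v₁, hv₁⟩ := exists_sol hs0 hs1 ha₁ (tg.inHs hs0 hs1)
    obtain ⟨v₂, hv₂⟩ := exists_sol hs0 hs1 ha₂ (tg.inHs hs0 hs1)
    obtain ⟨m₁, b₁⟩ := approx hs0 hs1 ha₁ hL0 hL (he0 n) (he1 n) hu₁ hv₁
    obtain ⟨m₂, b₂⟩ := approx hs0 hs1 ha₂ hL0 hL (he0 n) (he1 n) hu₂ hv₂
    have i₁ := m₁.integrable_sq.const_mul (2 * β₁ ^ 2)
    have i₂ := m₂.integrable_sq.const_mul (2 * β₂ ^ 2)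
    refine le_trans ?_ (add_le_add (mul_le_mul_of_nonneg_left b₁ (by positivity))
      (mul_le_mul_of_nonneg_left b₂ (by positivity)))
    rw [← integral_const_mul, ← integral_const_mul, ← integral_add i₁ i₂]
    refine integral_mono_ae (hmem n).integrable_sq (i₁.add i₂) ?_
    filter_upwards [prod_eq_left hs0 hs1 ha₁ ha₂ hp0 hp1 hm₁ hm₂ hS tf hu₁ hu₂,
      prod_eq_right hs0 hs1 ha₁ ha₂ hp0 hp1 hm₁ hm₂ hS tg hv₁ hv₂] with x c1 c2
    have e1 : h n x = a₂ x * (u₂ + v₂ - cut (e n)) x - a₁ x * (u₁ + v₁ - cut (e n)) x := by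
      simp only [hh, Pi.sub_apply, Pi.add_apply]
      linear_combination c1 + c2
    rw [e1]
    generalize (u₂ + v₂ - cut (e n)) x = w₂
    generalize (u₁ + v₁ - cut (e n)) x = w₁
    have k₁ := mul_le_mul_of_nonneg_right (ha₁.mul_ub x x) (sq_nonneg w₁)
    have k₂ := mul_le_mul_of_nonneg_right (ha₂.mul_ub x x) (sq_nonneg w₂)
    nlinarith [sq_nonneg (a₂ x * w₂ + a₁ x * w₁)]
  have hlim : Tendsto (fun n => ∫ x, h n x ^ 2) atTop (𝓝 0) := by
    have t := tendsto_err hs0 hs1 L het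
    have t1 := (((t.const_mul (3 * (β₁ / α₁) ^ 4)).const_mul (4 ^ (1 + 2 * s))).const_mul
      (2 * β₁ ^ 2)).add
      (((t.const_mul (3 * (β₂ / α₂) ^ 4)).const_mul (4 ^ (1 + 2 * s))).const_mul (2 * β₂ ^ 2))
    simp only [mul_zero, add_zero] at t1
    exact squeeze_zero (fun n => integral_nonneg fun x => sq_nonneg _) hbound t1
  rw [← tendsto_eLpNorm_iff hmem] at hlim
  have hTM : TendstoInMeasure volume h atTop 0 :=
    tendstoInMeasure_of_tendsto_eLpNorm (p := 2) (by norm_num) (fun n => (hmem n).1)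
      aestronglyMeasurable_zero (by simpa using hlim)
  obtain ⟨ns, hns, hae⟩ := hTM.exists_seq_tendsto_ae
  filter_upwards [hae, (Set.countable_singleton (1 : ℝ)).ae_notMem volume,
    (Set.countable_singleton (-1 : ℝ)).ae_notMem volume] with x hx c1 c2
  have d1 : 0 < |x - 1| := abs_pos.2 (sub_ne_zero.2 c1)
  have d2 : 0 < |x - -1| := abs_pos.2 (sub_ne_zero.2 c2)
  have hev : ∀ᶠ n in atTop, h n x = a₁ x - a₂ x := by
    filter_upwards [het.eventually (gt_mem_nhds (half_pos d1)),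
      het.eventually (gt_mem_nhds (half_pos d2)),
      het.eventually (gt_mem_nhds (show 0 < (|x| + 1)⁻¹ by positivity))] with n n1 n2 n3
    have n4 : |x - 0| ≤ (e n)⁻¹ := by
      rw [lt_inv_comm₀ (he0 n) (by positivity)] at n3
      rw [sub_zero]; linarith
    simp only [hh]
    rw [cut_one (he0 n) n4 (by linarith) (by linarith), mul_one]
  have hc : Tendsto (fun i => h (ns i) x) atTop (𝓝 (a₁ x - a₂ x)) :=
    tendsto_const_nhds.congr' ((hns.tendsto_atTop.eventually hev).mono fun i hi => hi.symm)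
  exact sub_eq_zero.1 (tendsto_nhds_unique hc hx)

theorem cns_ne_zero (hs0 : 0 < s) (hs1 : s < 1 / 2) : cns s ≠ 0 := by
  have h1 : Real.Gamma (-s) ≠ 0 := Real.Gamma_ne_zero fun m hm => by
    have h2 : s = m := by linarith
    rcases Nat.eq_zero_or_pos m with rfl | h
    · simp at h2; linarith
    · have : (1 : ℝ) ≤ m := by exact_mod_cast h
      linarith
  have h2 : 0 < Real.Gamma (1 / 2 + s) := Real.Gamma_pos_of_pos (by linarith)
  have h3 := abs_pos.2 h1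
  have h4 := Real.pi_pos
  unfold cns
  positivity

theorem form_eq (hs0 : 0 < s) {γ : ℝ → ℝ} (h : a =ᵐ[volume] fun x => √(γ x)) (u φ : ℝ → ℝ) :
    form s γ u φ = cns s / 2 * B s a u φ := by
  unfold form B
  congr 1
  refine integral_congr_ae ?_
  filter_upwards [ae_fst h, ae_snd h] with z c1 c2
  rw [quot_mul hs0, c1, c2]
  ring

theorem Admissible.exists_coef {γ : ℝ → ℝ} (h : Admissible s γ) :
    ∃ a α β, Coef a α β ∧ (a =ᵐ[volume] fun x => √(γ x)) ∧ ∀ᵐ x, 0 ≤ γ x := by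
  obtain ⟨hm, ⟨c, d, hc, hcd, hb⟩, -⟩ := h
  have hms := hm.stronglyMeasurable_mk.measurable
  refine ⟨fun x => max (√c) (min (√d) (√(hm.mk γ x))), √c, √d,
    ⟨by fun_prop, Real.sqrt_pos.2 hc, fun x => le_max_left _ _,
      fun x => max_le (Real.sqrt_le_sqrt hcd.le) (min_le_left _ _)⟩, ?_,
    hb.mono fun x hx => hc.le.trans hx.1⟩
  filter_upwards [hb, hm.ae_eq_mk] with x hx e
  rw [← e, min_eq_right (Real.sqrt_le_sqrt hx.2), max_eq_right (Real.sqrt_le_sqrt hx.1)]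

theorem uniqueness (hs0 : 0 < s) (hs1 : s < 1 / 2) {γ₁ γ₂ : ℝ → ℝ} (h₁ : Admissible s γ₁)
    (h₂ : Admissible s γ₂) (hS : SameData s (Ioo (-1) 1) (Iio (-1)) (Ioi 1) γ₁ γ₂) :
    γ₁ =ᵐ[volume] γ₂ := by
  obtain ⟨a₁, α₁, β₁, ha₁, e₁, n₁⟩ := h₁.exists_coef
  obtain ⟨a₂, α₂, β₂, ha₂, e₂, n₂⟩ := h₂.exists_coef
  have hc : cns s / 2 ≠ 0 := div_ne_zero (cns_ne_zero hs0 hs1) two_ne_zero
  have sol : ∀ {γ a f u : ℝ → ℝ}, (a =ᵐ[volume] fun x => √(γ x)) → Sol s a f u →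
      IsSolution s (Ioo (-1) 1) γ f u := fun e hu =>
    ⟨hu.1, hu.2.1, fun φ hφ => by rw [form_eq hs0 e, hu.2.2 φ hφ, mul_zero]⟩
  have mem : ∀ {γ a : ℝ → ℝ}, (a =ᵐ[volume] fun x => √(γ x)) → Admissible s γ →
      MemLp (fun x => a x - 1) (ENNReal.ofReal (1 / s)) volume := fun e h =>
    h.2.2.ae_eq (e.mono fun x hx => by simp only [hx])
  have key := coef_eq hs0 hs1 ha₁ ha₂ (p := ENNReal.ofReal (1 / s))
    (ENNReal.ofReal_pos.2 (by positivity)).ne' ENNReal.ofReal_ne_top (mem e₁ h₁) (mem e₂ h₂)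
    fun f g u₁ u₂ hf hg hu₁ hu₂ => by
      have := hS f g u₁ u₂ hf hg (sol e₁ hu₁) (sol e₂ hu₂)
      rw [form_eq hs0 e₁, form_eq hs0 e₂] at this
      exact mul_left_cancel₀ hc this
  filter_upwards [key, e₁, e₂, n₁, n₂] with x c c1 c2 d1 d2
  exact (Real.sqrt_inj d1 d2).1 (by rw [← c1, ← c2, c])

end Pool.Agent.Lib.MP_37caee_an
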